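import Mathlib

open MeasureTheory Set Filter Topology

namespace Pool.Agent.R361.EW

lemma taylor_pt (x : ℝ) :
    ‖Complex.exp (x * Complex.I) - (1 + x * Complex.I - x ^ 2 / 2 - x ^ 3 * Complex.I / 6 + x ^ 4 / 24)‖
      ≤ 4 * |x| ^ 5 := by
  rcases le_or_gt |x| 1 with hx | hx
  · have h1 := Complex.exp_bound (x := x * Complex.I) (n := 5) (by simpa using hx) (by norm_num)
    have h2 : ∑ m ∈ Finset.range 5, (x * Complex.I) ^ m / (m.factorial : ℂ) =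
        1 + x * Complex.I - x ^ 2 / 2 - x ^ 3 * Complex.I / 6 + x ^ 4 / 24 := by
      simp only [Finset.sum_range_succ, Finset.sum_range_zero, mul_pow]
      have i3 : Complex.I ^ 3 = -Complex.I := by
        rw [pow_succ, Complex.I_sq]; ring
      have i4 : Complex.I ^ 4 = 1 := by simp
      rw [Complex.I_sq, i3, i4]
      norm_num [Nat.factorial]
      ring
    rw [h2] at h1
    refine h1.trans ?_
    have h3 : ‖(x * Complex.I : ℂ)‖ = |x| := by simp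
    rw [h3]
    norm_num [Nat.factorial]
    have := pow_nonneg (abs_nonneg x) 5
    linarith
  · have h1 : ‖Complex.exp (x * Complex.I)‖ = 1 := Complex.norm_exp_ofReal_mul_I x
    have h2 : ‖(1 + x * Complex.I - x ^ 2 / 2 - x ^ 3 * Complex.I / 6 + x ^ 4 / 24 : ℂ)‖ ≤
        1 + |x| + |x| ^ 2 / 2 + |x| ^ 3 / 6 + |x| ^ 4 / 24 := by
      refine (norm_add_le _ _).trans ?_
      refine (add_le_add_left ((norm_sub_le _ _).trans (add_le_add_left ((norm_sub_le _ _).trans (add_le_add_left (norm_add_le _ _) _)) _)) _).trans ?_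
      simp
    have h3 : |x| ≤ |x| ^ 5 := by
      calc |x| = |x| ^ 1 := (pow_one _).symm
        _ ≤ |x| ^ 5 := pow_le_pow_right₀ hx.le (by norm_num)
    have h4 : |x| ^ 2 ≤ |x| ^ 5 := pow_le_pow_right₀ hx.le (by norm_num)
    have h5 : |x| ^ 3 ≤ |x| ^ 5 := pow_le_pow_right₀ hx.le (by norm_num)
    have h6 : |x| ^ 4 ≤ |x| ^ 5 := pow_le_pow_right₀ hx.le (by norm_num)
    have h7 : 1 ≤ |x| ^ 5 := one_le_pow₀ hx.le
    refine (norm_sub_le _ _).trans ?_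
    rw [h1]
    linarith

/-- moment assumptions, `lam ^ 3` is the fifth absolute moment -/
structure Mom (μ : Measure ℝ) (lam : ℝ) : Prop where
  prob : IsProbabilityMeasure μ
  i5 : Integrable (fun x => |x| ^ 5) μ
  m1 : ∫ x, x ∂μ = 0
  m2 : ∫ x, x ^ 2 ∂μ = 1
  m3 : ∫ x, x ^ 3 ∂μ = 0
  lam_pos : 0 < lam
  hlam : lam ^ 3 = ∫ x, |x| ^ 5 ∂μ

variable {μ : Measure ℝ} {lam : ℝ}

lemma Mom.int_abs_pow (h : Mom μ lam) (k : ℕ) (hk : k ≤ 5) : Integrable (fun x => |x| ^ k) μ := by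
  have := h.prob
  refine ((integrable_const (1:ℝ)).add h.i5).mono' (by fun_prop) (Eventually.of_forall (fun x => ?_))
  simp only [norm_pow, Real.norm_eq_abs, abs_abs, Pi.add_apply]
  rcases le_or_gt |x| 1 with hx | hx
  · have h1 : |x| ^ k ≤ 1 := pow_le_one₀ (abs_nonneg x) hx
    have := pow_nonneg (abs_nonneg x) 5
    linarith
  · have h1 : |x| ^ k ≤ |x| ^ 5 := pow_le_pow_right₀ hx.le hk
    linarith

lemma Mom.int_pow (h : Mom μ lam) (k : ℕ) (hk : k ≤ 5) : Integrable (fun x => x ^ k) μ := by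
  refine (h.int_abs_pow k hk).mono' (by fun_prop) (Eventually.of_forall (fun x => ?_))
  simp only [norm_pow, Real.norm_eq_abs, le_refl]

lemma Mom.one_le (h : Mom μ lam) : 1 ≤ lam := by
  have := h.prob
  -- y^3 (x^2): use 3 y^2 ... pointwise x^2 <= (2/5)|x|^5 + 3/5
  have h1 : ∀ x : ℝ, x ^ 2 ≤ (2/5) * |x| ^ 5 + 3/5 := by
    intro x
    rw [← sq_abs x]
    set y := |x|
    have hy : 0 ≤ y := abs_nonneg x
    -- 2 y^5 - 5 y^2 + 3 = (y-1)^2 (2y^3+4y^2+6y+3)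
    nlinarith [mul_nonneg (sq_nonneg (y - 1)) (show 0 ≤ 2 * y ^ 3 + 4 * y ^ 2 + 6 * y + 3 by positivity)]
  have h2 : ∫ x, x ^ 2 ∂μ ≤ ∫ x, ((2/5) * |x| ^ 5 + 3/5) ∂μ :=
    integral_mono (h.int_pow 2 (by norm_num)) ((h.i5.const_mul _).add (integrable_const _)) h1
  rw [integral_add (h.i5.const_mul _) (integrable_const _), integral_const_mul, ← h.hlam, h.m2] at h2
  simp at h2
  have h3 : 1 ≤ lam ^ 3 := by linarith
  by_contra hc
  push Not at hc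
  have := pow_lt_one₀ h.lam_pos.le hc (show 3 ≠ 0 by norm_num)
  linarith

lemma Mom.m4_le (h : Mom μ lam) : ∫ x, x ^ 4 ∂μ ≤ lam ^ 2 := by
  have := h.prob
  have hl := h.lam_pos
  have h1 : ∀ x : ℝ, x ^ 4 ≤ (lam ^ 2 / 3) * x ^ 2 + (2 / (3 * lam)) * |x| ^ 5 := by
    intro x
    have e1 : x ^ 4 = |x| ^ 4 := by rw [← abs_pow]; exact (abs_of_nonneg (by positivity)).symm
    rw [e1, ← sq_abs x]
    set y := |x|
    have hy : 0 ≤ y := abs_nonneg x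
    have e2 : (lam ^ 2 / 3) * y ^ 2 + (2 / (3 * lam)) * y ^ 5 - y ^ 4 =
      y ^ 2 * ((lam - y) ^ 2 * (lam + 2 * y)) / (3 * lam) := by
      field_simp
      ring
    have e3 : 0 ≤ y ^ 2 * ((lam - y) ^ 2 * (lam + 2 * y)) / (3 * lam) := by positivity
    linarith
  have h2 := integral_mono (h.int_pow 4 (by norm_num))
    (((h.int_pow 2 (by norm_num)).const_mul (lam ^ 2 / 3)).add (h.i5.const_mul (2 / (3 * lam)))) h1
  simp only [Pi.add_apply] at h2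
  rw [integral_add ((h.int_pow 2 (by norm_num)).const_mul (lam ^ 2 / 3)) (h.i5.const_mul (2 / (3 * lam))),
    integral_const_mul, integral_const_mul, ← h.hlam, h.m2] at h2
  have e4 : lam ^ 2 / 3 * 1 + 2 / (3 * lam) * lam ^ 3 = lam ^ 2 := by
    field_simp
    ring
  rw [e4] at h2
  exact h2

lemma Mom.m4_nonneg (_h : Mom μ lam) : 0 ≤ ∫ x, x ^ 4 ∂μ :=
  integral_nonneg (fun x => by positivity)

lemma Mom.taylor (h : Mom μ lam) (s : ℝ) :
    ‖charFun μ s - (1 - s ^ 2 / 2 + (∫ x, x ^ 4 ∂μ : ℝ) * s ^ 4 / 24)‖ ≤ 4 * lam ^ 3 * |s| ^ 5 := by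
  have := h.prob
  rw [charFun_apply_real]
  have i1 : Integrable (fun x : ℝ => Complex.exp (s * x * Complex.I)) μ := by
    refine (integrable_const (1:ℝ)).mono' (by fun_prop) (Eventually.of_forall (fun x => ?_))
    have : (s * x * Complex.I : ℂ) = ((s * x : ℝ) : ℂ) * Complex.I := by push_cast; ring
    rw [this, Complex.norm_exp_ofReal_mul_I]
  have p1 : Integrable (fun x : ℝ => (x : ℂ)) μ := by
    have := (h.int_pow 1 (by norm_num)).ofReal (𝕜 := ℂ)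
    simpa using this
  have p2 : Integrable (fun x : ℝ => (x : ℂ) ^ 2) μ := by
    have := (h.int_pow 2 (by norm_num)).ofReal (𝕜 := ℂ)
    simpa using this
  have p3 : Integrable (fun x : ℝ => (x : ℂ) ^ 3) μ := by
    have := (h.int_pow 3 (by norm_num)).ofReal (𝕜 := ℂ)
    simpa using this
  have p4 : Integrable (fun x : ℝ => (x : ℂ) ^ 4) μ := by
    have := (h.int_pow 4 (by norm_num)).ofReal (𝕜 := ℂ)
    simpa using this
  have q1 : ∫ x : ℝ, (x : ℂ) ∂μ = 0 := by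
    rw [integral_complex_ofReal, h.m1]; simp
  have q2 : ∫ x : ℝ, (x : ℂ) ^ 2 ∂μ = 1 := by
    have := integral_complex_ofReal (μ := μ) (f := fun x : ℝ => x ^ 2)
    rw [h.m2] at this
    simpa using this
  have q3 : ∫ x : ℝ, (x : ℂ) ^ 3 ∂μ = 0 := by
    have := integral_complex_ofReal (μ := μ) (f := fun x : ℝ => x ^ 3)
    rw [h.m3] at this
    simpa using this
  have q4 : ∫ x : ℝ, (x : ℂ) ^ 4 ∂μ = ((∫ x, x ^ 4 ∂μ : ℝ) : ℂ) := by
    have := integral_complex_ofReal (μ := μ) (f := fun x : ℝ => x ^ 4)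
    simpa using this
  set P : ℝ → ℂ := fun x => 1 + ((s * Complex.I) * x + (-(s ^ 2 / 2) * x ^ 2 + (-(s ^ 3 * Complex.I / 6) * x ^ 3 +
    (s ^ 4 / 24) * x ^ 4))) with hP
  have j3 : Integrable (fun x : ℝ => -((s:ℂ) ^ 3 * Complex.I / 6) * (x:ℂ) ^ 3 + ((s:ℂ) ^ 4 / 24) * (x:ℂ) ^ 4) μ :=
    (p3.const_mul _).add (p4.const_mul _)
  have j2 : Integrable (fun x : ℝ => -((s:ℂ) ^ 2 / 2) * (x:ℂ) ^ 2 + (-((s:ℂ) ^ 3 * Complex.I / 6) * (x:ℂ) ^ 3 + ((s:ℂ) ^ 4 / 24) * (x:ℂ) ^ 4)) μ :=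
    (p2.const_mul _).add j3
  have j1 : Integrable (fun x : ℝ => ((s:ℂ) * Complex.I) * (x:ℂ) + (-((s:ℂ) ^ 2 / 2) * (x:ℂ) ^ 2 + (-((s:ℂ) ^ 3 * Complex.I / 6) * (x:ℂ) ^ 3 + ((s:ℂ) ^ 4 / 24) * (x:ℂ) ^ 4))) μ :=
    (p1.const_mul _).add j2
  have iP : Integrable P μ := (integrable_const _).add j1
  have e1 : ∫ x, P x ∂μ = 1 - s ^ 2 / 2 + (∫ x, x ^ 4 ∂μ : ℝ) * s ^ 4 / 24 := by
    rw [hP]
    beta_reduce
    rw [integral_add (integrable_const _) j1, integral_add (p1.const_mul _) j2,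
      integral_add (p2.const_mul _) j3, integral_add (p3.const_mul _) (p4.const_mul _),
      integral_const_mul, integral_const_mul, integral_const_mul,
      integral_const_mul, q1, q2, q3, q4]
    simp
    ring
  rw [← e1, ← integral_sub i1 iP]
  refine (norm_integral_le_integral_norm _).trans ?_
  have e2 : ∀ x : ℝ, ‖Complex.exp (s * x * Complex.I) - P x‖ ≤ 4 * |s| ^ 5 * |x| ^ 5 := by
    intro x
    have := taylor_pt (s * x)
    have e3 : Complex.exp (s * x * Complex.I) - P x = Complex.exp ((s * x : ℝ) * Complex.I) -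
      (1 + (s * x : ℝ) * Complex.I - ((s * x : ℝ) : ℂ) ^ 2 / 2 - ((s * x : ℝ) : ℂ) ^ 3 * Complex.I / 6 + ((s * x : ℝ) : ℂ) ^ 4 / 24) := by
      rw [hP]; push_cast; ring
    rw [e3]
    refine this.trans (le_of_eq ?_)
    rw [abs_mul, mul_pow]; ring
  refine (integral_mono (i1.sub iP).norm (h.i5.const_mul (4 * |s| ^ 5)) e2).trans ?_
  rw [integral_const_mul, ← h.hlam]
  exact le_of_eq (by ring)

/-- the exponent -/
noncomputable def vv (μ : Measure ℝ) (s : ℝ) : ℝ := -s ^ 2 / 2 + ((∫ x, x ^ 4 ∂μ) - 3) * s ^ 4 / 24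

lemma Mom.phi_le (h : Mom μ lam) (s : ℝ) (hs : |s| * lam ≤ 1 / 4) :
    ‖charFun μ s‖ ≤ Real.exp (-s ^ 2 / 4) := by
  have h1 := h.taylor s
  have hl1 := h.one_le
  have hm := h.m4_le
  have hm0 := h.m4_nonneg
  set m4 := ∫ x, x ^ 4 ∂μ
  have hy : 0 ≤ |s| := abs_nonneg s
  have hs1 : |s| ≤ 1 / 4 := by nlinarith
  have h2 : ‖charFun μ s‖ ≤ ‖(1 - s ^ 2 / 2 + (m4 : ℝ) * s ^ 4 / 24 : ℂ)‖ + 4 * lam ^ 3 * |s| ^ 5 := by
    have := norm_add_le (charFun μ s - (1 - s ^ 2 / 2 + (m4 : ℝ) * s ^ 4 / 24)) (1 - s ^ 2 / 2 + (m4 : ℝ) * s ^ 4 / 24 : ℂ)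
    rw [sub_add_cancel] at this
    linarith
  have h3 : ‖(1 - s ^ 2 / 2 + (m4 : ℝ) * s ^ 4 / 24 : ℂ)‖ = 1 - s ^ 2 / 2 + m4 * s ^ 4 / 24 := by
    have : (1 - s ^ 2 / 2 + (m4 : ℝ) * s ^ 4 / 24 : ℂ) = ((1 - s ^ 2 / 2 + m4 * s ^ 4 / 24 : ℝ) : ℂ) := by push_cast; ring
    rw [this, Complex.norm_real, Real.norm_of_nonneg]
    have : s ^ 2 ≤ 1 := by rw [← sq_abs]; nlinarith
    have : 0 ≤ m4 * s ^ 4 := by positivity
    linarith
  rw [h3] at h2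
  have hsq : s ^ 2 = |s| ^ 2 := (sq_abs s).symm
  have hs4 : s ^ 4 = |s| ^ 4 := by rw [← abs_pow]; exact (abs_of_nonneg (by positivity)).symm
  rw [hsq, hs4] at h2
  rw [hsq]
  set y := |s|
  have hyl : (y * lam) ^ 2 ≤ (1/4) ^ 2 := by gcongr
  have hyl3 : (y * lam) ^ 3 ≤ (1/4) ^ 3 := by gcongr
  have a1 : m4 * y ^ 4 ≤ (1/16) * y ^ 2 := by
    calc m4 * y ^ 4 ≤ lam ^ 2 * y ^ 4 := by gcongr
      _ = (y * lam) ^ 2 * y ^ 2 := by ring
      _ ≤ (1/4) ^ 2 * y ^ 2 := by gcongr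
      _ = (1/16) * y ^ 2 := by norm_num
  have a2 : lam ^ 3 * y ^ 5 ≤ (1/64) * y ^ 2 := by
    calc lam ^ 3 * y ^ 5 = (y * lam) ^ 3 * y ^ 2 := by ring
      _ ≤ (1/4) ^ 3 * y ^ 2 := by gcongr
      _ = (1/64) * y ^ 2 := by norm_num
  have h4 : ‖charFun μ s‖ ≤ 1 - y ^ 2 / 4 := by
    have := sq_nonneg y
    linarith
  have h5 := Real.add_one_le_exp (-y ^ 2 / 4)
  linarith

lemma Mom.vv_le (h : Mom μ lam) (s : ℝ) (hs : |s| * lam ≤ 1 / 4) : vv μ s ≤ -s ^ 2 / 4 := by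
  unfold vv
  have hl1 := h.one_le
  have hm := h.m4_le
  have hy : 0 ≤ |s| := abs_nonneg s
  have hsq : s ^ 2 = |s| ^ 2 := (sq_abs s).symm
  have hs4 : s ^ 4 = |s| ^ 4 := by rw [← abs_pow]; exact (abs_of_nonneg (by positivity)).symm
  rw [hsq, hs4]
  set y := |s|
  set m4 := ∫ x, x ^ 4 ∂μ
  have hyl : (y * lam) ^ 2 ≤ (1/4) ^ 2 := by gcongr
  have a1 : (m4 - 3) * y ^ 4 ≤ (1/16) * y ^ 2 := by
    calc (m4 - 3) * y ^ 4 ≤ lam ^ 2 * y ^ 4 := by gcongr; linarith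
      _ = (y * lam) ^ 2 * y ^ 2 := by ring
      _ ≤ (1/4) ^ 2 * y ^ 2 := by gcongr
      _ = (1/16) * y ^ 2 := by norm_num
  have := sq_nonneg y
  linarith

lemma Mom.diff_le (h : Mom μ lam) (s : ℝ) (hs : |s| * lam ≤ 1 / 4) :
    ‖charFun μ s - (Real.exp (vv μ s) : ℂ)‖ ≤ 6 * lam ^ 3 * |s| ^ 5 := by
  have h1 := h.taylor s
  have hl1 := h.one_le
  have hm := h.m4_le
  have hm0 := h.m4_nonneg
  set m4 := ∫ x, x ^ 4 ∂μ with hm4
  have hy : 0 ≤ |s| := abs_nonneg s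
  have hs1 : |s| ≤ 1 / 4 := by nlinarith
  have hsq : s ^ 2 = |s| ^ 2 := (sq_abs s).symm
  have hs4 : s ^ 4 = |s| ^ 4 := by rw [← abs_pow]; exact (abs_of_nonneg (by positivity)).symm
  have hl2 : 1 ≤ lam ^ 2 := one_le_pow₀ hl1
  have hl23 : lam ^ 2 ≤ lam ^ 3 := pow_le_pow_right₀ hl1 (by norm_num)
  have hl3 : 1 ≤ lam ^ 3 := one_le_pow₀ hl1
  have hv : vv μ s = -|s| ^ 2 / 2 + (m4 - 3) * |s| ^ 4 / 24 := by unfold vv; rw [← hm4, hsq, hs4]
  have h0 : (1 - s ^ 2 / 2 + (m4 : ℝ) * s ^ 4 / 24 : ℂ) = ((1 - |s| ^ 2 / 2 + m4 * |s| ^ 4 / 24 : ℝ) : ℂ) := by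
    rw [← hsq, ← hs4]; push_cast; ring
  rw [h0] at h1
  set y := |s|
  set v := vv μ s
  have hyl : (y * lam) ^ 2 ≤ (1/4) ^ 2 := by gcongr
  have a0 : |m4 - 3| ≤ 4 * lam ^ 2 := by rw [abs_le]; constructor <;> linarith
  have a1 : |(m4 - 3) * y ^ 4 / 24| ≤ lam ^ 2 * y ^ 4 / 6 := by
    rw [abs_div, abs_mul, abs_of_nonneg (show (0:ℝ) ≤ y ^ 4 by positivity), abs_of_pos (show (0:ℝ) < 24 by norm_num)]
    have := mul_le_mul_of_nonneg_right a0 (show (0:ℝ) ≤ y ^ 4 by positivity)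
    linarith
  have a2 : lam ^ 2 * y ^ 4 / 6 ≤ y ^ 2 / 96 := by
    have : lam ^ 2 * y ^ 4 = (y * lam) ^ 2 * y ^ 2 := by ring
    rw [this]
    have := mul_le_mul_of_nonneg_right hyl (sq_nonneg y)
    linarith
  have a3 : |v| ≤ y ^ 2 := by
    rw [hv]
    have h5 := abs_le.mp (a1.trans a2)
    have := sq_nonneg y
    rw [abs_le]; constructor <;> linarith [h5.1, h5.2]
  have hy2 : y ^ 2 ≤ 1 := by nlinarith
  have a4 : |Real.exp v - (1 + v + v ^ 2 / 2)| ≤ |v| ^ 3 := by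
    have := Real.exp_bound (x := v) (a3.trans hy2) (n := 3) (by norm_num)
    simp only [Finset.sum_range_succ, Finset.sum_range_zero] at this
    norm_num [Nat.factorial] at this
    have h6 := pow_nonneg (abs_nonneg v) 3
    linarith
  have a5 : |v| ^ 3 ≤ lam ^ 3 * y ^ 5 := by
    calc |v| ^ 3 ≤ (y ^ 2) ^ 3 := by gcongr
      _ = y * y ^ 5 := by ring
      _ ≤ 1 * y ^ 5 := by gcongr; linarith
      _ ≤ lam ^ 3 * y ^ 5 := by gcongr
  have a6 : |(1 + v + v ^ 2 / 2) - (1 - y ^ 2 / 2 + m4 * y ^ 4 / 24)| ≤ lam ^ 3 * y ^ 5 := by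
    have e1 : (1 + v + v ^ 2 / 2) - (1 - y ^ 2 / 2 + m4 * y ^ 4 / 24) = (v - y ^ 2 / 2) * ((m4 - 3) * y ^ 4 / 24) / 2 := by
      rw [hv]; ring
    rw [e1, abs_div, abs_mul, abs_of_pos (show (0:ℝ) < 2 by norm_num)]
    have e2 : |v - y ^ 2 / 2| ≤ 3 / 2 * y ^ 2 := by
      have := abs_le.mp a3
      rw [abs_le]; constructor <;> linarith [this.1, this.2]
    calc |v - y ^ 2 / 2| * |(m4 - 3) * y ^ 4 / 24| / 2 ≤ (3 / 2 * y ^ 2) * (lam ^ 2 * y ^ 4 / 6) / 2 := by gcongr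
      _ = (1 / 8) * lam ^ 2 * y * y ^ 5 := by ring
      _ ≤ 1 * lam ^ 3 * 1 * y ^ 5 := by gcongr <;> linarith
      _ = lam ^ 3 * y ^ 5 := by ring
  have e3 : charFun μ s - (Real.exp v : ℂ) = (charFun μ s - ((1 - y ^ 2 / 2 + m4 * y ^ 4 / 24 : ℝ) : ℂ)) -
      ((Real.exp v - (1 + v + v ^ 2 / 2) + ((1 + v + v ^ 2 / 2) - (1 - y ^ 2 / 2 + m4 * y ^ 4 / 24)) : ℝ) : ℂ) := by
    push_cast; ring
  rw [e3]
  refine (norm_sub_le _ _).trans ?_
  rw [Complex.norm_real, Real.norm_eq_abs]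
  have := abs_add_le (Real.exp v - (1 + v + v ^ 2 / 2)) ((1 + v + v ^ 2 / 2) - (1 - y ^ 2 / 2 + m4 * y ^ 4 / 24))
  linarith

/-- Symmetrisation. -/
lemma normSq_charFun [IsProbabilityMeasure μ] (s : ℝ) :
    ‖charFun μ s‖ ^ 2 = ∫ z, Real.cos (s * (z.1 - z.2)) ∂(μ.prod μ) := by
  have i1 : ∀ t : ℝ, Integrable (fun x : ℝ => Complex.exp (t * x * Complex.I)) μ := by
    intro t
    refine (integrable_const (1:ℝ)).mono' (by fun_prop) (Eventually.of_forall (fun x => ?_))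
    have : (t * x * Complex.I : ℂ) = ((t * x : ℝ) : ℂ) * Complex.I := by push_cast; ring
    rw [this, Complex.norm_exp_ofReal_mul_I]
  have h1 : ((‖charFun μ s‖ ^ 2 : ℝ) : ℂ) = ∫ z : ℝ × ℝ, Complex.exp (s * z.1 * Complex.I) * Complex.exp ((-s : ℝ) * z.2 * Complex.I) ∂(μ.prod μ) := by
    rw [integral_prod_mul (fun x : ℝ => Complex.exp (s * x * Complex.I)) (fun x : ℝ => Complex.exp ((-s : ℝ) * x * Complex.I)),
      ← charFun_apply_real, ← charFun_apply_real, charFun_neg, Complex.mul_conj, Complex.normSq_eq_norm_sq]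
  have h2 := congrArg Complex.re h1
  rw [Complex.ofReal_re] at h2
  have h3 := integral_re (μ := μ.prod μ) (𝕜 := ℂ) ((i1 s).mul_prod (i1 (-s)))
  simp only [RCLike.re_to_complex] at h3
  rw [h2, ← h3]
  congr 1
  ext z
  rw [← Complex.exp_add]
  have : (s * z.1 * Complex.I + (-s : ℝ) * z.2 * Complex.I : ℂ) = ((s * (z.1 - z.2) : ℝ) : ℂ) * Complex.I := by
    push_cast; ring
  rw [this, Complex.exp_ofReal_mul_I_re]

lemma cos_pair (a b : ℝ) : 1 - Real.cos (a - b) ≤ 2 * (1 - Real.cos a) + 2 * (1 - Real.cos b) := by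
  have h1 : ∀ x : ℝ, 1 - Real.cos x = 2 * Real.sin (x / 2) ^ 2 := by
    intro x
    have := Real.cos_sq (x / 2)
    have h2 := Real.sin_sq_add_cos_sq (x / 2)
    rw [show 2 * (x / 2) = x by ring] at this
    linarith
  rw [h1, h1, h1, show (a - b) / 2 = a / 2 - b / 2 by ring, Real.sin_sub]
  have c1 := Real.cos_sq_le_one (a / 2)
  have c2 := Real.cos_sq_le_one (b / 2)
  have s1 := sq_nonneg (Real.sin (a / 2))
  have s2 := sq_nonneg (Real.sin (b / 2))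
  have e1 : (Real.sin (a / 2) * Real.cos (b / 2) - Real.cos (a / 2) * Real.sin (b / 2)) ^ 2 ≤
      2 * (Real.sin (a / 2) ^ 2 * Real.cos (b / 2) ^ 2) + 2 * (Real.cos (a / 2) ^ 2 * Real.sin (b / 2) ^ 2) := by
    nlinarith [sq_nonneg (Real.sin (a / 2) * Real.cos (b / 2) + Real.cos (a / 2) * Real.sin (b / 2))]
  have e2 : Real.sin (a / 2) ^ 2 * Real.cos (b / 2) ^ 2 ≤ Real.sin (a / 2) ^ 2 := by nlinarith
  have e3 : Real.cos (a / 2) ^ 2 * Real.sin (b / 2) ^ 2 ≤ Real.sin (b / 2) ^ 2 := by nlinarith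
  linarith

lemma pair_ineq [IsProbabilityMeasure μ] (a b : ℝ) :
    1 - ‖charFun μ (a - b)‖ ^ 2 ≤ 2 * (1 - ‖charFun μ a‖ ^ 2) + 2 * (1 - ‖charFun μ b‖ ^ 2) := by
  rw [normSq_charFun, normSq_charFun, normSq_charFun]
  have i1 : ∀ t : ℝ, Integrable (fun z : ℝ × ℝ => Real.cos (t * (z.1 - z.2))) (μ.prod μ) := by
    intro t
    refine (integrable_const (1:ℝ)).mono' (by fun_prop) (Eventually.of_forall (fun x => ?_))
    exact Real.abs_cos_le_one _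
  have i2 : ∀ t : ℝ, Integrable (fun z : ℝ × ℝ => 1 - Real.cos (t * (z.1 - z.2))) (μ.prod μ) :=
    fun t => (integrable_const _).sub (i1 t)
  have h1 : ∀ t : ℝ, 1 - ∫ z, Real.cos (t * (z.1 - z.2)) ∂(μ.prod μ) = ∫ z, (1 - Real.cos (t * (z.1 - z.2))) ∂(μ.prod μ) := by
    intro t
    rw [integral_sub (integrable_const _) (i1 t)]
    simp
  rw [h1, h1, h1, ← integral_const_mul, ← integral_const_mul, ← integral_add ((i2 a).const_mul 2) ((i2 b).const_mul 2)]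
  apply integral_mono (i2 _) (((i2 a).const_mul 2).add ((i2 b).const_mul 2))
  intro z
  simp only [Pi.add_apply]
  rw [sub_mul]
  exact cos_pair _ _

lemma Mom.gap (h : Mom μ lam) (s : ℝ) (hs : |s| * lam ≤ 1 / 4) :
    s ^ 2 / 4 ≤ 1 - ‖charFun μ s‖ ^ 2 := by
  have h1 := h.phi_le s hs
  have hl1 := h.one_le
  have hy : 0 ≤ |s| := abs_nonneg s
  have hs1 : |s| ≤ 1 / 4 := by nlinarith
  have h2 : ‖charFun μ s‖ ^ 2 ≤ Real.exp (-s ^ 2 / 2) := by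
    calc ‖charFun μ s‖ ^ 2 ≤ (Real.exp (-s ^ 2 / 4)) ^ 2 := by gcongr
      _ = Real.exp (-s ^ 2 / 2) := by rw [← Real.exp_nat_mul]; congr 1; push_cast; ring
  have h3 : Real.exp (-s ^ 2 / 2) ≤ 1 - s ^ 2 / 4 := by
    have hs2 : s ^ 2 ≤ 1 / 16 := by rw [← sq_abs]; nlinarith
    have := Real.norm_exp_sub_one_sub_id_le (x := -s ^ 2 / 2) (by
      rw [Real.norm_eq_abs, abs_le]; constructor <;> nlinarith [sq_nonneg s])
    rw [Real.norm_eq_abs, Real.norm_eq_abs, abs_le, sq_abs] at this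
    nlinarith [this.2, sq_nonneg s]
  linarith

end Pool.Agent.R361.EW
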