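import Mathlib

open MeasureTheory Set Filter Topology
open scoped ContDiff

namespace Pool.Agent.R361.EW

noncomputable def bump : ContDiffBump (1/2 : ℝ) := ⟨3/8, 1/2, by norm_num, by norm_num⟩

noncomputable def f1 (x : ℝ) : ℝ := (x + 1) * bump x

lemma f1_cont : Continuous f1 := by
  have := bump.continuous
  unfold f1
  fun_prop

lemma f1_contDiff : ContDiff ℝ ∞ f1 := by
  unfold f1
  exact (contDiff_id.add contDiff_const).mul bump.contDiff

lemma f1_zero (x : ℝ) (hx : x ≤ 0 ∨ 1 ≤ x) : f1 x = 0 := by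
  unfold f1
  rw [bump.zero_of_le_dist, mul_zero]
  have : bump.rOut = 1/2 := rfl
  rw [this, Real.dist_eq]
  rcases hx with h | h
  · rw [abs_of_nonpos (by linarith)]; linarith
  · rw [abs_of_nonneg (by linarith)]; linarith

lemma f1_mid (x : ℝ) (hx : x ∈ Icc (1/8 : ℝ) (7/8)) : f1 x = x + 1 := by
  unfold f1
  rw [bump.one_of_mem_closedBall, mul_one]
  have : bump.rIn = 3/8 := rfl
  rw [Metric.mem_closedBall, this, Real.dist_eq, abs_le]
  constructor <;> linarith [hx.1, hx.2]

lemma f1_bd (x : ℝ) (hx : x ∈ Icc (0 : ℝ) 1) : 0 ≤ f1 x ∧ f1 x ≤ x + 1 := by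
  unfold f1
  have h1 := bump.nonneg (x := x)
  have h2 := bump.le_one (x := x)
  constructor
  · have := hx.1; positivity
  · nlinarith [hx.1]

noncomputable def a0 : ℝ := ∫ x in (0:ℝ)..1, f1 x ^ 2
noncomputable def b0 : ℝ := ∫ x in (0:ℝ)..1, f1 x ^ 4

lemma a0_ge : (17/10 : ℝ) ≤ a0 := by
  have h1 : ∫ x in (1/8:ℝ)..(7/8), f1 x ^ 2 ≤ a0 := by
    apply intervalIntegral.integral_mono_interval (by norm_num) (by norm_num) (by norm_num)
    · exact Eventually.of_forall (fun x => by simp only [Pi.zero_apply]; positivity)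
    · exact (f1_cont.pow 2).intervalIntegrable _ _
  have h2 : ∫ x in (1/8:ℝ)..(7/8), f1 x ^ 2 = ∫ x in (1/8:ℝ)..(7/8), (x + 1) ^ 2 := by
    apply intervalIntegral.integral_congr
    intro x hx
    rw [uIcc_of_le (by norm_num)] at hx
    simp only
    rw [f1_mid x hx]
  have h3 : ∫ x in (1/8:ℝ)..(7/8), (x + 1) ^ 2 = 2646 / 1536 := by
    rw [intervalIntegral.integral_comp_add_right (fun x => x ^ 2), integral_pow]
    norm_num
  rw [h2, h3] at h1
  refine le_trans ?_ h1
  norm_num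

lemma b0_le : b0 ≤ 31/5 := by
  have h3 : ∫ x in (0:ℝ)..1, (x + 1) ^ 4 = 31 / 5 := by
    rw [intervalIntegral.integral_comp_add_right (fun x => x ^ 4), integral_pow]
    norm_num
  rw [← h3]
  apply intervalIntegral.integral_mono_on (by norm_num) ((f1_cont.pow 4).intervalIntegrable _ _)
    (Continuous.intervalIntegrable (by fun_prop) _ _)
  intro x hx
  obtain ⟨h1, h2⟩ := f1_bd x hx
  simp only [Pi.pow_apply]
  gcongr

lemma b0_pos : 0 < b0 := by
  have h1 : ∫ x in (1/8:ℝ)..(7/8), f1 x ^ 4 ≤ b0 := by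
    apply intervalIntegral.integral_mono_interval (by norm_num) (by norm_num) (by norm_num)
    · exact Eventually.of_forall (fun x => by simp only [Pi.zero_apply]; positivity)
    · exact (f1_cont.pow 4).intervalIntegrable _ _
  have h2 : ∫ x in (1/8:ℝ)..(7/8), f1 x ^ 4 = ∫ x in (1/8:ℝ)..(7/8), (x + 1) ^ 4 := by
    apply intervalIntegral.integral_congr
    intro x hx
    rw [uIcc_of_le (by norm_num)] at hx
    simp only
    rw [f1_mid x hx]
  have h3 : (0:ℝ) < ∫ x in (1/8:ℝ)..(7/8), (x + 1) ^ 4 := by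
    rw [intervalIntegral.integral_comp_add_right (fun x => x ^ 4), integral_pow]
    norm_num
  rw [h2] at h1
  linarith

noncomputable def rho : ℝ := b0 / (3 * a0 ^ 2)

lemma rho_pos : 0 < rho := by
  have h1 := a0_ge
  have h2 := b0_pos
  unfold rho
  positivity

lemma rho_le : rho ≤ 1 := by
  have h1 := a0_ge
  have h2 := b0_le
  unfold rho
  rw [div_le_one (by positivity)]
  nlinarith

noncomputable def ww (x : ℝ) : ℝ := (1 / (rho * a0)) * f1 (x / rho) ^ 2

lemma ww_contDiff : ContDiff ℝ ∞ ww := by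
  unfold ww
  exact contDiff_const.mul ((f1_contDiff.comp (contDiff_id.div_const rho)).pow 2)

lemma a0_pos : 0 < a0 := by linarith [a0_ge]

lemma ww_nonneg (x : ℝ) : 0 ≤ ww x := by
  have := rho_pos
  have := a0_pos
  unfold ww
  positivity

lemma ww_zero (x : ℝ) (hx : x ≤ 0 ∨ 1 ≤ x) : ww x = 0 := by
  unfold ww
  have hr := rho_pos
  have hr1 := rho_le
  rw [f1_zero, zero_pow (by norm_num), mul_zero]
  rcases hx with h | h
  · left; exact div_nonpos_of_nonpos_of_nonneg h hr.le
  · right; rw [le_div_iff₀ hr]; linarith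

lemma ww_supp : tsupport ww ⊆ Icc 0 1 := by
  apply closure_minimal _ isClosed_Icc
  intro x hx
  rw [Function.mem_support] at hx
  by_contra hc
  apply hx
  apply ww_zero
  rw [mem_Icc, not_and_or, not_le, not_le] at hc
  rcases hc with h | h
  · left; exact h.le
  · right; exact h.le

lemma scale_int (g : ℝ → ℝ) (hg : Continuous g) (h0 : ∀ x, 1 ≤ x → g x = 0) :
    ∫ x in (0:ℝ)..1, g (x / rho) = rho * ∫ x in (0:ℝ)..1, g x := by
  have hr := rho_pos
  have hr1 := rho_le
  rw [intervalIntegral.integral_comp_div _ hr.ne', zero_div, smul_eq_mul]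
  congr 1
  rw [← intervalIntegral.integral_add_adjacent_intervals (b := 1) (hg.intervalIntegrable _ _) (hg.intervalIntegrable _ _)]
  have : ∫ x in (1:ℝ)..(1 / rho), g x = 0 := by
    have e1 : ∫ x in (1:ℝ)..(1 / rho), g x = ∫ x in (1:ℝ)..(1 / rho), (0:ℝ) := by
      apply intervalIntegral.integral_congr
      intro x hx
      rw [uIcc_of_le (by rw [le_div_iff₀ hr]; linarith)] at hx
      exact h0 x hx.1
    rw [e1]; simp
  rw [this, add_zero]

lemma ww_int : ∫ x in (0:ℝ)..1, ww x = 1 := by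
  unfold ww
  rw [intervalIntegral.integral_const_mul, scale_int (fun x => f1 x ^ 2) (f1_cont.pow 2)
    (fun x hx => by rw [f1_zero x (Or.inr hx)]; norm_num)]
  have h1 := rho_pos
  have h2 := a0_pos
  change 1 / (rho * a0) * (rho * a0) = 1
  field_simp

lemma ww_int2 : ∫ x in (0:ℝ)..1, ww x ^ 2 = 3 := by
  have e1 : ∀ x, ww x ^ 2 = (1 / (rho * a0)) ^ 2 * f1 (x / rho) ^ 4 := by
    intro x; unfold ww; ring
  simp only [e1]
  rw [intervalIntegral.integral_const_mul, scale_int (fun x => f1 x ^ 4) (f1_cont.pow 4)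
    (fun x hx => by rw [f1_zero x (Or.inr hx)]; norm_num)]
  have h1 := rho_pos
  have h2 := a0_pos
  have h3 := b0_pos
  change (1 / (rho * a0)) ^ 2 * (rho * b0) = 3
  have h4 : rho * (3 * a0 ^ 2) = b0 := by unfold rho; field_simp
  rw [← h4]
  field_simp

/-- slope -/
noncomputable def al : ℝ := Real.sqrt (1 / (rho * a0)) / rho
noncomputable def be : ℝ := Real.sqrt (1 / (rho * a0))

lemma al_pos : 0 < al := by
  have h1 := rho_pos
  have h2 := a0_pos
  unfold al; positivity

lemma ww_sqrt (x : ℝ) (hx : x ∈ Icc (rho / 8) (7 * rho / 8)) : Real.sqrt (ww x) = al * x + be := by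
  have h1 := rho_pos
  have h2 := a0_pos
  unfold ww al be
  rw [f1_mid (x / rho) ⟨by rw [le_div_iff₀ h1]; linarith [hx.1], by rw [div_le_iff₀ h1]; linarith [hx.2]⟩,
    Real.sqrt_mul (by positivity), Real.sqrt_sq]
  · ring
  · have : 0 ≤ x := by linarith [hx.1]
    positivity

lemma ww_compact : HasCompactSupport ww := IsCompact.of_isClosed_subset isCompact_Icc (isClosed_tsupport _) ww_supp

lemma ww_lip : ∃ Λ : ℝ, 0 ≤ Λ ∧ ∀ x y, |ww x - ww y| ≤ Λ * |x - y| := by
  obtain ⟨C, hC⟩ := ContDiff.lipschitzWith_of_hasCompactSupport (𝕂 := ℝ) ww_compact ww_contDiff (by simp)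
  refine ⟨C, C.2, fun x y => ?_⟩
  have := hC.dist_le_mul x y
  simpa [Real.dist_eq] using this

lemma ww_bdd : ∃ W : ℝ, 1 ≤ W ∧ ∀ x, ww x ≤ W := by
  obtain ⟨C, hC⟩ := ww_compact.exists_bound_of_continuous ww_contDiff.continuous
  refine ⟨max C 1, le_max_right _ _, fun x => ?_⟩
  have := hC x
  rw [Real.norm_of_nonneg (ww_nonneg x)] at this
  exact this.trans (le_max_left _ _)

lemma riemann (F : ℝ → ℝ) (Λ : ℝ) (hc : Continuous F) (hF : ∀ x y, |F x - F y| ≤ Λ * |x - y|)
    (hΛ : 0 ≤ Λ) (N : ℕ) (hN : 0 < N) :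
    |∑ n ∈ Finset.range N, F (n / N) - N * ∫ x in (0:ℝ)..1, F x| ≤ Λ := by
  have hN0 : (0:ℝ) < N := by positivity
  have e1 : (N:ℝ) * ∫ x in (0:ℝ)..1, F x = ∑ n ∈ Finset.range N, ∫ x in (n:ℝ)..((n+1 : ℕ) : ℝ), F (x / N) := by
    rw [intervalIntegral.sum_integral_adjacent_intervals
      (f := fun x => F (x / N)) (a := fun n : ℕ => (n : ℝ))
      (fun k _ => (hc.comp (continuous_id.div_const _)).intervalIntegrable _ _)]
    rw [intervalIntegral.integral_comp_div _ hN0.ne']
    simp [hN0.ne']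
  rw [e1, ← Finset.sum_sub_distrib]
  refine (Finset.abs_sum_le_sum_abs _ _).trans ?_
  have e2 : ∀ n ∈ Finset.range N, |F (n / N) - ∫ x in (n:ℝ)..((n+1 : ℕ) : ℝ), F (x / N)| ≤ Λ / N := by
    intro n _
    have e3 : F (n / N) - ∫ x in (n:ℝ)..((n+1 : ℕ) : ℝ), F (x / N) =
        ∫ x in (n:ℝ)..((n+1 : ℕ) : ℝ), (F (n / N) - F (x / N)) := by
      have hi : IntervalIntegrable (fun x : ℝ => F (x / N)) volume (n:ℝ) ((n+1 : ℕ) : ℝ) :=
        (hc.comp (continuous_id.div_const _)).intervalIntegrable _ _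
      rw [intervalIntegral.integral_sub intervalIntegrable_const hi]
      simp
    rw [e3, ← Real.norm_eq_abs]
    refine (intervalIntegral.norm_integral_le_of_norm_le_const (C := Λ / N) (fun x hx => ?_)).trans ?_
    · rw [uIoc_of_le (by push_cast; linarith)] at hx
      rw [Real.norm_eq_abs]
      refine (hF _ _).trans ?_
      rw [← sub_div, abs_div, abs_of_pos hN0, ← mul_div_assoc]
      gcongr
      have : |(n:ℝ) - x| ≤ 1 := by
        have h1 := hx.1
        have h2 := hx.2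
        push_cast at h2
        rw [abs_le]; constructor <;> linarith
      nlinarith
    · push_cast
      simp
  refine (Finset.sum_le_card_nsmul _ _ _ e2).trans ?_
  rw [nsmul_eq_mul, Finset.card_range]
  have : (N:ℝ) * (Λ / N) = Λ := by field_simp
  rw [this]

end Pool.Agent.R361.EW
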