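import Pool.Agent.R361.EW.Gauss
import Pool.Agent.R361.EW.Weight

open MeasureTheory Set Filter Topology

namespace Pool.Agent.R361.EW

noncomputable def AN (N : ℕ) : ℝ := ∑ n ∈ Finset.range N, ww (n / N)

noncomputable def th (N : ℕ) (n : ℕ) : ℝ := (Real.sqrt (AN N))⁻¹ * Real.sqrt (ww (n / N))

lemma sum_Ico (F : ℝ → ℝ) (hF : F 0 = 0) (N : ℕ) (hN : 1 ≤ N) :
    ∑ n ∈ Finset.Ico 1 N, F (n / N) = ∑ n ∈ Finset.range N, F (n / N) := by
  rw [Finset.range_eq_Ico, Finset.sum_eq_sum_Ico_succ_bot (show 0 < N by omega)]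
  simp [hF]

lemma facts : ∃ (c3 c4 : ℝ) (N0 : ℕ), 0 < c3 ∧ 0 ≤ c4 ∧ 2 ≤ N0 ∧ ∀ N : ℕ, N0 ≤ N →
    (N:ℝ) / 2 ≤ AN N ∧ AN N ≤ 2 * N ∧ ∑ n ∈ Finset.Ico 1 N, th N n ^ 2 = 1 ∧
    |∑ n ∈ Finset.Ico 1 N, th N n ^ 4 - 3 / N| ≤ c4 / N ^ 2 ∧
    ∀ n, 0 ≤ th N n ∧ th N n ≤ c3 / Real.sqrt N := by
  obtain ⟨Λ, hΛ0, hΛ⟩ := ww_lip
  obtain ⟨W, hW1, hW⟩ := ww_bdd
  have hΛ2 : ∀ x y, |ww x ^ 2 - ww y ^ 2| ≤ (2 * W * Λ) * |x - y| := by
    intro x y
    have e1 : ww x ^ 2 - ww y ^ 2 = (ww x + ww y) * (ww x - ww y) := by ring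
    rw [e1, abs_mul]
    have h1 := ww_nonneg x
    have h2 := ww_nonneg y
    have h3 := hW x
    have h4 := hW y
    rw [abs_of_nonneg (by linarith)]
    calc (ww x + ww y) * |ww x - ww y| ≤ (2 * W) * (Λ * |x - y|) := by
          gcongr
          · linarith
          · exact hΛ x y
      _ = _ := by ring
  refine ⟨2 * W, 4 * (2 * W * Λ + 9 * Λ), ⌈2 * Λ⌉₊ + 2, by linarith, by positivity, by omega, ?_⟩
  intro N hN
  have hN2 : 2 ≤ N := by omega
  have hN0 : (0:ℝ) < N := by positivity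
  have hNΛ : 2 * Λ ≤ N := by
    have h1 := Nat.le_ceil (2 * Λ)
    have h2 : ((⌈2 * Λ⌉₊ : ℕ) : ℝ) ≤ N := by exact_mod_cast (by omega : ⌈2 * Λ⌉₊ ≤ N)
    linarith
  have hA := riemann ww Λ ww_contDiff.continuous hΛ hΛ0 N (by omega)
  rw [ww_int, mul_one] at hA
  have hA' := abs_le.mp hA
  have hQ := riemann (fun x => ww x ^ 2) (2 * W * Λ) (ww_contDiff.continuous.pow 2) hΛ2 (by positivity) N (by omega)
  rw [ww_int2] at hQ
  have hA1 : (N:ℝ) / 2 ≤ AN N := by unfold AN; linarith [hA'.1]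
  have hA2 : AN N ≤ 2 * N := by unfold AN; linarith [hA'.2]
  have hA3 : |AN N - N| ≤ Λ := hA
  set A := AN N with hAdef
  set Q := ∑ n ∈ Finset.range N, ww (n / N) ^ 2 with hQdef
  have hA0 : 0 < A := by linarith
  have hsA : 0 < Real.sqrt A := Real.sqrt_pos.mpr hA0
  have hsA2 : Real.sqrt A ^ 2 = A := Real.sq_sqrt hA0.le
  have hwz : ww 0 = 0 := ww_zero 0 (Or.inl le_rfl)
  have th2 : ∀ n, th N n ^ 2 = ww (n / N) / A := by
    intro n
    unfold th
    rw [mul_pow, inv_pow, hsA2, Real.sq_sqrt (ww_nonneg _)]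
    field_simp
  refine ⟨hA1, hA2, ?_, ?_, ?_⟩
  · simp only [th2]
    rw [← Finset.sum_div, sum_Ico ww hwz N (by omega)]
    exact div_self hA0.ne'
  · have th4 : ∀ n, th N n ^ 4 = ww (n / N) ^ 2 / A ^ 2 := by
      intro n
      have : th N n ^ 4 = (th N n ^ 2) ^ 2 := by ring
      rw [this, th2, div_pow]
    simp only [th4]
    rw [← Finset.sum_div, sum_Ico (fun x => ww x ^ 2) (by rw [hwz]; norm_num) N (by omega)]
    have e1 : Q / A ^ 2 - 3 / N = (N * (Q - N * 3) + 3 * ((N - A) * (N + A))) / (N * A ^ 2) := by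
      field_simp; ring
    change |Q / A ^ 2 - 3 / N| ≤ _
    rw [e1, abs_div, abs_of_pos (show 0 < N * A ^ 2 by positivity), div_le_div_iff₀ (by positivity) (by positivity)]
    have e2 : |N * (Q - N * 3) + 3 * ((N - A) * (N + A))| ≤ N * (2 * W * Λ) + 3 * (Λ * (3 * N)) := by
      refine (abs_add_le _ _).trans ?_
      rw [abs_mul, abs_mul, abs_mul, abs_of_pos hN0, abs_of_pos (show (0:ℝ) < 3 by norm_num), abs_of_pos (show 0 < N + A by positivity)]
      have e3 : |(N:ℝ) - A| ≤ Λ := by rw [abs_sub_comm]; exact hA3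
      gcongr
      linarith
    have e4 : (N:ℝ) ^ 2 ≤ 4 * A ^ 2 := by nlinarith
    calc |N * (Q - N * 3) + 3 * ((N - A) * (N + A))| * (N:ℝ) ^ 2
        ≤ (N * (2 * W * Λ) + 3 * (Λ * (3 * N))) * (4 * A ^ 2) := by gcongr
      _ = 4 * (2 * W * Λ + 9 * Λ) * (N * A ^ 2) := by ring
  · intro n
    refine ⟨by unfold th; positivity, ?_⟩
    have hsN : 0 < Real.sqrt N := Real.sqrt_pos.mpr hN0
    rw [le_div_iff₀ hsN]
    have h1 : (th N n * Real.sqrt N) ^ 2 ≤ (2 * W) ^ 2 := by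
      rw [mul_pow, th2, Real.sq_sqrt hN0.le, div_mul_eq_mul_div, div_le_iff₀ hA0]
      have := hW (n / N)
      have h0 := ww_nonneg (n / N)
      have hW0 : 0 ≤ W := by linarith
      calc ww (n / N) * N ≤ W * (2 * A) := by gcongr; linarith
        _ ≤ (2 * W) ^ 2 * A := by
          nlinarith [mul_nonneg (mul_nonneg hW0 hA0.le) (show 0 ≤ 2 * W - 1 by linarith)]
    exact (abs_le_of_sq_le_sq' h1 (by linarith)).2

lemma th_lin (N n : ℕ) (h1 : rho / 8 ≤ (n:ℝ) / N) (h2 : (n:ℝ) / N ≤ 7 * rho / 8) :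
    th N n = (Real.sqrt (AN N))⁻¹ * (al * (n / N) + be) := by
  unfold th
  rw [ww_sqrt _ ⟨h1, h2⟩]

variable {μ : Measure ℝ} {lam : ℝ}

/-- high frequency bound; `kp = (b - a)/2 = 3 rho / 8` -/
theorem high_conc (h : Mom μ lam) (N : ℕ) (hN : 2 ≤ N) (hA1 : (N:ℝ) / 2 ≤ AN N) (hA2 : AN N ≤ 2 * N)
    (r : ℝ) (hr : r = lam / Real.sqrt N) (c1 ξ : ℝ) (hξ : 0 < ξ) (hξ1 : ξ ≤ 1 / 4)
    (hξ2 : 5 * ξ ≤ c1 * (3 * rho / 8) * al) (t : ℝ) (ht0 : 0 < t)
    (ht1 : c1 ≤ r * t) (ht2 : t ≤ ξ / (2 * al) / r ^ 3) :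
    ‖∏ n ∈ Finset.Ico 1 N, charFun μ (th N n * t)‖ ≤ Real.exp (-((3 * rho / 8) * ξ ^ 2 / 192 / r ^ 2)) := by
  have hl1 := h.one_le
  have hal := al_pos
  have hrho := rho_pos
  have hrho1 := rho_le
  set sN := Real.sqrt N with hsN
  have hN0 : (0:ℝ) < N := by positivity
  have hsN0 : 0 < sN := Real.sqrt_pos.mpr hN0
  have hsN2 : sN ^ 2 = N := Real.sq_sqrt hN0.le
  have hr0 : 0 < r := by rw [hr]; positivity
  have hrl : r * sN = lam := by rw [hr]; field_simp
  set A := AN N with hA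
  have hA0 : 0 < A := by linarith
  set sA := Real.sqrt A with hsA
  have hsA0 : 0 < sA := Real.sqrt_pos.mpr hA0
  have hsA2 : sA ^ 2 = A := Real.sq_sqrt hA0.le
  have hsA_ge : sN / 2 ≤ sA := by
    apply (abs_le_of_sq_le_sq' (a := sN / 2) (b := sA) ?_ hsA0.le).2
    rw [hsA2, div_pow, hsN2]; linarith
  have hsA_le : sA ≤ 3 / 2 * sN := by
    apply (abs_le_of_sq_le_sq' (a := sA) (b := 3 / 2 * sN) ?_ (by positivity)).2
    rw [hsA2, mul_pow, hsN2]; linarith
  set kp := 3 * rho / 8 with hkp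
  have hkp0 : 0 < kp := by positivity
  set y := ξ * N * sA / (t * al * lam) with hy
  have hy0 : 0 < y := by positivity
  have hy1 : 1 ≤ y := by
    rw [hy, le_div_iff₀ (by positivity), one_mul]
    have e1 : t * r ^ 3 ≤ ξ / (2 * al) := by
      rwa [le_div_iff₀ (by positivity)] at ht2
    have e2 : t * al * lam * (2 * (r ^ 2 / sN)) ≤ ξ := by
      have : t * al * lam * (2 * (r ^ 2 / sN)) = (t * r ^ 3) * (2 * al) := by
        rw [← hrl]; field_simp
      rw [this]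
      rwa [le_div_iff₀ (by positivity)] at e1
    have e3 : 1 ≤ N * r ^ 2 := by
      rw [← hsN2]
      have : sN ^ 2 * r ^ 2 = lam ^ 2 := by rw [← hrl]; ring
      rw [this]; exact one_le_pow₀ hl1
    have e4 : t * al * lam ≤ ξ * (N * (sN / 2)) := by
      have : ξ * (N * (sN / 2)) ≥ t * al * lam * (2 * (r ^ 2 / sN)) * (N * (sN / 2)) := by
        gcongr
      have e5 : t * al * lam * (2 * (r ^ 2 / sN)) * (N * (sN / 2)) = t * al * lam * (N * r ^ 2) := by
        field_simp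
      rw [e5] at this
      nlinarith [show 0 < t * al * lam by positivity]
    calc t * al * lam ≤ ξ * (N * (sN / 2)) := e4
      _ ≤ ξ * (N * sA) := by gcongr
      _ = ξ * N * sA := by ring
  have hy2 : y ≤ kp * N / 3 := by
    rw [hy, div_le_iff₀ (by positivity)]
    have e1 : c1 * sN ≤ lam * t := by
      rw [← hrl]
      have := mul_le_mul_of_nonneg_right ht1 hsN0.le
      linarith
    have e2 : 5 * ξ * sN ≤ kp * al * (lam * t) := by
      have h3 := mul_le_mul_of_nonneg_right hξ2 hsN0.le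
      have h4 := mul_le_mul_of_nonneg_left e1 (show 0 ≤ kp * al by positivity)
      nlinarith
    have e3 : 3 * (ξ * sA) ≤ kp * al * (lam * t) := by
      have := mul_le_mul_of_nonneg_left hsA_le hξ.le
      nlinarith [show 0 < ξ * sN by positivity]
    have e4 := mul_le_mul_of_nonneg_left e3 hN0.le
    nlinarith
  set q := ⌊y⌋₊ with hq
  have hq1 : (q:ℝ) ≤ y := Nat.floor_le hy0.le
  have hq2 : y < q + 1 := Nat.lt_floor_add_one y
  have hq3 : 1 ≤ q := by rw [hq]; exact (Nat.one_le_floor_iff y).mpr hy1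
  have hq4 : y / 2 ≤ q := by
    have : (1:ℝ) ≤ q := by exact_mod_cast hq3
    linarith
  set n0 := ⌈rho / 8 * N⌉₊ with hn0
  set n1 := ⌊7 * rho / 8 * N⌋₊ with hn1
  have hn0a : rho / 8 * N ≤ n0 := Nat.le_ceil _
  have hn0b : (n0:ℝ) < rho / 8 * N + 1 := Nat.ceil_lt_add_one (by positivity)
  have hn1a : (n1:ℝ) ≤ 7 * rho / 8 * N := Nat.floor_le (by positivity)
  have hn1b : 7 * rho / 8 * N < n1 + 1 := Nat.lt_floor_add_one _
  have hn0pos : 1 ≤ n0 := by
    rw [hn0, Nat.one_le_ceil_iff]; positivity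
  have hn1N : n1 < N := by
    have : (n1:ℝ) < N := by nlinarith
    exact_mod_cast this
  have hqn1 : n0 + q ≤ n1 + 1 := by
    have : (n0:ℝ) + q < n1 + 2 := by nlinarith
    have : n0 + q < n1 + 2 := by exact_mod_cast this
    omega
  set I := Finset.Ico n0 (n1 + 1 - q) with hI
  have hIcard : 2 / 3 * kp * N ≤ (I.card : ℝ) := by
    rw [hI, Nat.card_Ico]
    have e1 : ((n1 + 1 - q - n0 : ℕ) : ℝ) = n1 + 1 - q - n0 := by
      rw [Nat.cast_sub (by omega), Nat.cast_sub (by omega)]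
      push_cast; ring
    rw [e1]
    nlinarith
  have hmem : ∀ n ∈ I, rho / 8 ≤ (n:ℝ) / N ∧ ((n + q : ℕ):ℝ) / N ≤ 7 * rho / 8 := by
    intro n hn
    rw [hI, Finset.mem_Ico] at hn
    constructor
    · rw [le_div_iff₀ hN0]
      have : (n0:ℝ) ≤ n := by exact_mod_cast hn.1
      linarith
    · rw [div_le_iff₀ hN0]
      have : ((n + q : ℕ):ℝ) ≤ n1 := by exact_mod_cast (by omega : n + q ≤ n1)
      linarith
  set d := (sA)⁻¹ * (al * (q / N)) with hd
  have hd' : ∀ n ∈ I, th N (n + q) - th N n = d := by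
    intro n hn
    obtain ⟨m1, m2⟩ := hmem n hn
    have hnq : (n:ℝ) / N ≤ ((n + q : ℕ):ℝ) / N := by
      gcongr; omega
    rw [th_lin N n m1 (hnq.trans m2), th_lin N (n + q) (m1.trans hnq) m2, hd]
    push_cast
    ring
  have hdt : d * t * lam = ξ * (q / y) := by
    rw [hd, hy]; field_simp
  have hdt0 : 0 ≤ d * t := by rw [hd]; positivity
  have hqy : (q:ℝ) / y ≤ 1 := by rw [div_le_one hy0]; exact hq1
  have hqy2 : 1 / 2 ≤ (q:ℝ) / y := by rw [le_div_iff₀ hy0]; linarith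
  have hhr := high_range h (Finset.Ico 1 N) (th N) I q d t
    (by
      intro n hn
      rw [hI, Finset.mem_Ico] at hn
      rw [Finset.mem_Ico]; omega)
    (by
      intro n hn
      rw [hI, Finset.mem_Ico] at hn
      rw [Finset.mem_Ico]; omega)
    hd'
    (by
      rw [abs_of_nonneg hdt0, hdt]
      nlinarith)
  have hfin : 2 * ((3 * rho / 8) * ξ ^ 2 / 192 / r ^ 2) ≤ I.card * (d * t) ^ 2 / 16 := by
    have e1 : ξ / (2 * lam) ≤ d * t := by
      rw [div_le_iff₀ (by positivity)]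
      have : d * t * (2 * lam) = 2 * (d * t * lam) := by ring
      rw [this, hdt]
      nlinarith
    have e2 : (2 / 3 * kp * N) * (ξ / (2 * lam)) ^ 2 ≤ I.card * (d * t) ^ 2 := by gcongr
    have e3 : (2 / 3 * kp * N) * (ξ / (2 * lam)) ^ 2 = kp * ξ ^ 2 / 6 / r ^ 2 := by
      rw [← hrl, ← hsN2]; field_simp; norm_num
    rw [e3] at e2
    have e4 : 2 * (kp * ξ ^ 2 / 192 / r ^ 2) = (kp * ξ ^ 2 / 6 / r ^ 2) / 16 := by ring
    rw [← hkp, e4]
    gcongr
  have hsq : ‖∏ n ∈ Finset.Ico 1 N, charFun μ (th N n * t)‖ ^ 2 ≤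
      (Real.exp (-((3 * rho / 8) * ξ ^ 2 / 192 / r ^ 2))) ^ 2 := by
    refine hhr.trans ?_
    rw [← Real.exp_nat_mul]
    apply Real.exp_le_exp.mpr
    push_cast
    linarith
  exact (abs_le_of_sq_le_sq' hsq (Real.exp_pos _).le).2

noncomputable def EE (t : ℝ) : ℝ := Real.exp (-t ^ 2 / 4) * (t ^ 2 + t ^ 3 + t ^ 4 + t ^ 6 + t ^ 7)

lemma EE_cont : Continuous EE := by unfold EE; fun_prop

lemma EE_int : Integrable EE := by
  have h1 : ∀ k : ℕ, Integrable (fun s : ℝ => s ^ k * Real.exp (-(1/4) * s ^ 2)) := by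
    intro k
    have := integrable_rpow_mul_exp_neg_mul_sq (b := 1/4) (by norm_num) (s := (k:ℝ))
      (by have : (0:ℝ) ≤ k := by positivity
          linarith)
    refine this.congr (Eventually.of_forall (fun s => ?_))
    simp only [Real.rpow_natCast]
  have := ((((h1 2).add (h1 3)).add (h1 4)).add (h1 6)).add (h1 7)
  refine this.congr (Eventually.of_forall (fun s => ?_))
  simp only [Pi.add_apply, EE]
  rw [show -s ^ 2 / 4 = -(1/4) * s ^ 2 by ring]
  ring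

lemma EE_bound : ∃ CE : ℝ, 0 ≤ CE ∧ ∀ T : ℝ, 0 ≤ T → ∫ t in (0:ℝ)..T, EE t ≤ CE := by
  refine ⟨∫ t, |EE t|, integral_nonneg (fun t => abs_nonneg _), fun T hT => ?_⟩
  calc ∫ t in (0:ℝ)..T, EE t ≤ ∫ t in (0:ℝ)..T, |EE t| := by
        apply intervalIntegral.integral_mono_on hT (EE_cont.intervalIntegrable _ _) (EE_cont.abs.intervalIntegrable _ _)
        intro t _
        exact le_abs_self _
    _ ≤ ∫ t, |EE t| := by
        rw [intervalIntegral.integral_of_le hT]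
        exact setIntegral_le_integral EE_int.abs (Eventually.of_forall (fun t => abs_nonneg _))

lemma cf_one (ν : Measure ℝ) (τ : ℝ) : cf ν (fun _ => 1) τ = charFun ν τ := by
  unfold cf
  rw [charFun_apply_real]
  simp

lemma trivial_bound : ∃ C : ℝ, 0 < C ∧ ∀ (κ N x : ℝ), 0 < N → |∫ s in Iic x, gam κ N s| ≤ C * (1 + |κ| / N) := by
  have hi1 := hg_int0.abs
  have hi2 := H4_int.abs
  refine ⟨1 + (∫ s, |hg s|) + ∫ s, |H4 s|, ?_, ?_⟩
  · have h1 : 0 ≤ ∫ s, |hg s| := integral_nonneg (fun t => abs_nonneg _)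
    have h2 : 0 ≤ ∫ s, |H4 s| := integral_nonneg (fun t => abs_nonneg _)
    linarith
  · intro κ N x hN
    have h1 : 0 ≤ ∫ s, |hg s| := integral_nonneg (fun t => abs_nonneg _)
    have h2 : 0 ≤ ∫ s, |H4 s| := integral_nonneg (fun t => abs_nonneg _)
    have h3 : |(Real.sqrt (2 * Real.pi))⁻¹| ≤ 1 := by
      rw [abs_of_pos (by positivity)]
      apply inv_le_one_of_one_le₀
      rw [Real.one_le_sqrt]
      linarith [Real.pi_gt_three]
    have b1 : |∫ s in Iic x, hg s| ≤ ∫ s, |hg s| := by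
      refine (abs_integral_le_integral_abs).trans ?_
      exact setIntegral_le_integral hi1 (Eventually.of_forall (fun s => abs_nonneg _))
    have b2 : |∫ s in Iic x, H4 s| ≤ ∫ s, |H4 s| := by
      refine (abs_integral_le_integral_abs).trans ?_
      exact setIntegral_le_integral hi2 (Eventually.of_forall (fun s => abs_nonneg _))
    unfold gam
    rw [integral_const_mul, integral_add hg_int0.integrableOn (H4_int.const_mul _).integrableOn,
      integral_const_mul, abs_mul]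
    have hk : |κ / (8 * N)| ≤ |κ| / N := by
      rw [abs_div, abs_of_pos (show 0 < 8 * N by positivity)]
      apply div_le_div_of_nonneg_left (abs_nonneg _) hN
      linarith
    have hk0 : 0 ≤ |κ| / N := by positivity
    calc |(Real.sqrt (2 * Real.pi))⁻¹| * |(∫ s in Iic x, hg s) + κ / (8 * N) * ∫ s in Iic x, H4 s|
        ≤ 1 * (|∫ s in Iic x, hg s| + |κ / (8 * N)| * |∫ s in Iic x, H4 s|) := by
          gcongr
          refine (abs_add_le _ _).trans ?_
          rw [abs_mul (κ / (8 * N))]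
      _ ≤ 1 * ((∫ s, |hg s|) + |κ| / N * ∫ s, |H4 s|) := by gcongr
      _ ≤ (1 + (∫ s, |hg s|) + ∫ s, |H4 s|) * (1 + |κ| / N) := by nlinarith [mul_nonneg hk0 h1, mul_nonneg hk0 h2]

end Pool.Agent.R361.EW
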