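import Pool.Agent.R361.EW.CharEst

open MeasureTheory Set Filter Topology

namespace Pool.Agent.R361.EW

lemma prod_diff {ι : Type*} [DecidableEq ι] (S : Finset ι) (a b : ι → ℂ) (e δ : ι → ℝ) (he : ∀ i ∈ S, 0 < e i)
    (ha : ∀ i ∈ S, ‖a i‖ ≤ e i) (hb : ∀ i ∈ S, ‖b i‖ ≤ e i) (hd : ∀ i ∈ S, ‖a i - b i‖ ≤ δ i) :
    ‖∏ i ∈ S, a i - ∏ i ∈ S, b i‖ ≤ (∏ i ∈ S, e i) * ∑ i ∈ S, δ i / e i := by
  induction S using Finset.induction_on with
  | empty => simp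
  | insert i S hi ih =>
    rw [Finset.prod_insert hi, Finset.prod_insert hi, Finset.prod_insert hi, Finset.sum_insert hi]
    have he' : ∀ j ∈ S, 0 < e j := fun j hj => he j (Finset.mem_insert_of_mem hj)
    have ih' := ih he' (fun j hj => ha j (Finset.mem_insert_of_mem hj))
      (fun j hj => hb j (Finset.mem_insert_of_mem hj)) (fun j hj => hd j (Finset.mem_insert_of_mem hj))
    have h1 : a i * ∏ j ∈ S, a j - b i * ∏ j ∈ S, b j =
        (a i - b i) * ∏ j ∈ S, a j + b i * (∏ j ∈ S, a j - ∏ j ∈ S, b j) := by ring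
    have h2 : ‖∏ j ∈ S, a j‖ ≤ ∏ j ∈ S, e j := by
      rw [norm_prod]
      exact Finset.prod_le_prod (fun _ _ => norm_nonneg _) (fun j hj => ha j (Finset.mem_insert_of_mem hj))
    have h3 : 0 < ∏ j ∈ S, e j := Finset.prod_pos he'
    have hei := he i (Finset.mem_insert_self i S)
    have hdi := hd i (Finset.mem_insert_self i S)
    have hbi := hb i (Finset.mem_insert_self i S)
    rw [h1]
    refine (norm_add_le _ _).trans ?_
    rw [norm_mul, norm_mul]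
    have hδ : 0 ≤ δ i := (norm_nonneg _).trans hdi
    calc ‖a i - b i‖ * ‖∏ j ∈ S, a j‖ + ‖b i‖ * ‖∏ j ∈ S, a j - ∏ j ∈ S, b j‖
        ≤ δ i * (∏ j ∈ S, e j) + e i * ((∏ j ∈ S, e j) * ∑ j ∈ S, δ j / e j) := by gcongr
      _ = e i * (∏ j ∈ S, e j) * (δ i / e i + ∑ j ∈ S, δ j / e j) := by
        field_simp

variable {μ : Measure ℝ} {lam : ℝ}

/-- the Fourier transform of the corrected normal law -/
noncomputable def gg (κ : ℝ) (N : ℝ) (t : ℝ) : ℝ := Real.exp (-t ^ 2 / 2) * (1 + κ * t ^ 4 / (8 * N))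

lemma exp_real_bound (z : ℝ) : |Real.exp z - 1 - z| ≤ z ^ 2 * Real.exp |z| := by
  have h := Complex.norm_exp_sub_sum_le_norm_mul_exp (z : ℂ) 2
  simp only [Finset.sum_range_succ, Finset.sum_range_zero, pow_zero, pow_one, Nat.factorial, zero_add] at h
  have e1 : (Complex.exp z - ((1:ℂ) / ((1:ℕ) : ℂ) + (z : ℂ) / (((0 + 1) * 1 : ℕ) : ℂ))) = ((Real.exp z - 1 - z : ℝ) : ℂ) := by
    push_cast
    ring
  rw [Complex.norm_real, Real.norm_eq_abs, sq_abs] at h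
  have e2 : ‖Complex.exp z - ((1:ℂ) / ((1:ℕ) : ℂ) + (z : ℂ) / (((0 + 1) * 1 : ℕ) : ℂ))‖ = |Real.exp z - 1 - z| := by
    rw [e1, Complex.norm_real, Real.norm_eq_abs]
  rw [← e2]
  convert h using 3

theorem low_range (h : Mom μ lam) (S : Finset ℕ) (θ : ℕ → ℝ) (N : ℕ) (hN : 1 ≤ N) (c3 c4 : ℝ)
    (hc4 : 0 ≤ c4)
    (hθ : ∀ n ∈ S, 0 ≤ θ n ∧ θ n ≤ c3 / Real.sqrt N) (h2 : ∑ n ∈ S, θ n ^ 2 = 1)
    (h4 : |∑ n ∈ S, θ n ^ 4 - 3 / N| ≤ c4 / N ^ 2) (hcard : S.card ≤ N)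
    (r : ℝ) (hr : r = lam / Real.sqrt N) (hr1 : r ≤ 1) (t : ℝ) (ht : 0 ≤ t)
    (ht1 : c3 * r * t ≤ 1 / 4) (ht2 : (3 + c4) * (r * t) ^ 2 ≤ 3 / 4) :
    ‖∏ n ∈ S, charFun μ (θ n * t) - (gg ((∫ x, x ^ 4 ∂μ) - 3) N t : ℂ)‖ ≤
      r ^ 3 * Real.exp (-t ^ 2 / 4) * (12 * c3 ^ 5 * t ^ 5 + ((3 + c4) / 6) ^ 2 * t ^ 8 + c4 / 6 * t ^ 4) := by
  have hl1 := h.one_le
  have hm := h.m4_le
  have hm0 := h.m4_nonneg
  set κ := (∫ x, x ^ 4 ∂μ) - 3 with hκ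
  set sN := Real.sqrt N with hsN
  have hN0 : (0:ℝ) < N := by positivity
  have hsN0 : 0 < sN := Real.sqrt_pos.mpr hN0
  have hsN2 : sN ^ 2 = N := Real.sq_sqrt hN0.le
  have hN1 : (1:ℝ) ≤ N := by exact_mod_cast hN
  have hsN1 : 1 ≤ sN := by rw [hsN]; exact Real.one_le_sqrt.mpr hN1
  have hr0 : 0 < r := by rw [hr]; positivity
  have hrl : r * sN = lam := by rw [hr]; field_simp
  have hκ1 : |κ| ≤ 4 * lam ^ 2 := by
    have hl2 : 1 ≤ lam ^ 2 := one_le_pow₀ hl1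
    rw [abs_le]; constructor <;> linarith
  -- bound on arguments
  have hs : ∀ n ∈ S, |θ n * t| * lam ≤ 1 / 4 := by
    intro n hn
    obtain ⟨a1, a2⟩ := hθ n hn
    rw [abs_of_nonneg (by positivity)]
    calc θ n * t * lam ≤ c3 / sN * t * lam := by gcongr
      _ = c3 * r * t := by rw [hr]; ring
      _ ≤ 1 / 4 := ht1
  -- first step
  have step1 : ‖∏ n ∈ S, charFun μ (θ n * t) - ∏ n ∈ S, (Real.exp (vv μ (θ n * t)) : ℂ)‖ ≤
      Real.exp (-t ^ 2 / 4) * (12 * c3 ^ 5 * t ^ 5 * r ^ 3) := by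
    have := prod_diff S (fun n => charFun μ (θ n * t)) (fun n => (Real.exp (vv μ (θ n * t)) : ℂ))
      (fun n => Real.exp (-(θ n * t) ^ 2 / 4)) (fun n => 6 * lam ^ 3 * |θ n * t| ^ 5)
      (fun _ _ => Real.exp_pos _) (fun n hn => h.phi_le _ (hs n hn))
      (fun n hn => by
        rw [Complex.norm_real, Real.norm_of_nonneg (Real.exp_pos _).le]
        exact Real.exp_le_exp.mpr (h.vv_le _ (hs n hn)))
      (fun n hn => h.diff_le _ (hs n hn))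
    refine this.trans ?_
    have e1 : ∏ n ∈ S, Real.exp (-(θ n * t) ^ 2 / 4) = Real.exp (-t ^ 2 / 4) := by
      rw [← Real.exp_sum]
      congr 1
      calc ∑ n ∈ S, -(θ n * t) ^ 2 / 4 = ∑ n ∈ S, (θ n ^ 2) * (-t ^ 2 / 4) := by
            apply Finset.sum_congr rfl; intro n _; ring
        _ = -t ^ 2 / 4 := by rw [← Finset.sum_mul, h2, one_mul]
    rw [e1]
    apply mul_le_mul_of_nonneg_left _ (Real.exp_pos _).le
    have hc3 : 0 ≤ c3 := by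
      by_contra hneg
      push Not at hneg
      have hemp : S = ∅ := by
        rw [Finset.eq_empty_iff_forall_notMem]
        intro n hn
        obtain ⟨a1, a2⟩ := hθ n hn
        have : c3 / sN < 0 := div_neg_of_neg_of_pos hneg hsN0
        linarith
      rw [hemp] at h2
      simp at h2
    have e2 : ∀ n ∈ S, 6 * lam ^ 3 * |θ n * t| ^ 5 / Real.exp (-(θ n * t) ^ 2 / 4) ≤
        12 * lam ^ 3 * (c3 / sN) ^ 5 * t ^ 5 := by
      intro n hn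
      obtain ⟨a1, a2⟩ := hθ n hn
      have hsn := hs n hn
      have hss : |θ n * t| ≤ 1 / 4 := by
        have := abs_nonneg (θ n * t)
        nlinarith
      have e3 : Real.exp ((θ n * t) ^ 2 / 4) ≤ 2 := by
        have : (θ n * t) ^ 2 / 4 ≤ 1 / 64 := by
          rw [← sq_abs]
          have := abs_nonneg (θ n * t)
          nlinarith
        calc Real.exp ((θ n * t) ^ 2 / 4) ≤ Real.exp (1 / 64) := Real.exp_le_exp.mpr this
          _ ≤ 1 / (1 - 1 / 64) := Real.exp_bound_div_one_sub_of_interval (by norm_num) (by norm_num)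
          _ ≤ 2 := by norm_num
      have e4 : 6 * lam ^ 3 * |θ n * t| ^ 5 / Real.exp (-(θ n * t) ^ 2 / 4) =
          6 * lam ^ 3 * |θ n * t| ^ 5 * Real.exp ((θ n * t) ^ 2 / 4) := by
        rw [div_eq_mul_inv, ← Real.exp_neg]; congr 2; ring
      rw [e4, abs_of_nonneg (by positivity)]
      calc 6 * lam ^ 3 * (θ n * t) ^ 5 * Real.exp ((θ n * t) ^ 2 / 4)
          ≤ 6 * lam ^ 3 * ((c3 / sN) * t) ^ 5 * 2 := by gcongr
        _ = 12 * lam ^ 3 * (c3 / sN) ^ 5 * t ^ 5 := by ring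
    refine (Finset.sum_le_card_nsmul S _ _ e2).trans ?_
    rw [nsmul_eq_mul]
    calc (S.card : ℝ) * (12 * lam ^ 3 * (c3 / sN) ^ 5 * t ^ 5)
        ≤ (N : ℝ) * (12 * lam ^ 3 * (c3 / sN) ^ 5 * t ^ 5) := by gcongr
      _ = 12 * c3 ^ 5 * t ^ 5 * r ^ 3 := by
        rw [← hsN2, hr]
        field_simp
  -- second step
  have step2 : ‖∏ n ∈ S, (Real.exp (vv μ (θ n * t)) : ℂ) - (gg κ N t : ℂ)‖ ≤
      Real.exp (-t ^ 2 / 4) * (r ^ 3 * (((3 + c4) / 6) ^ 2 * t ^ 8 + c4 / 6 * t ^ 4)) := by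
    set Q := ∑ n ∈ S, θ n ^ 4 with hQ
    set z := κ * t ^ 4 * Q / 24 with hz
    have e1 : ∏ n ∈ S, (Real.exp (vv μ (θ n * t)) : ℂ) = ((Real.exp (-t ^ 2 / 2) * Real.exp z : ℝ) : ℂ) := by
      rw [← Complex.ofReal_prod, ← Real.exp_sum, ← Real.exp_add]
      congr 2
      calc ∑ n ∈ S, vv μ (θ n * t) = ∑ n ∈ S, ((θ n ^ 2) * (-t ^ 2 / 2) + (θ n ^ 4) * (κ * t ^ 4 / 24)) := by
            apply Finset.sum_congr rfl; intro n _; unfold vv; rw [← hκ]; ring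
        _ = -t ^ 2 / 2 + z := by
            rw [Finset.sum_add_distrib, ← Finset.sum_mul, ← Finset.sum_mul, h2, ← hQ, hz]; ring
    rw [e1, ← Complex.ofReal_sub, Complex.norm_real, Real.norm_eq_abs]
    have hQ0 : 0 ≤ Q := Finset.sum_nonneg (fun n _ => by positivity)
    have hQ1 : Q ≤ (3 + c4) / N := by
      have := (abs_le.mp h4).2
      have h5 : c4 / (N:ℝ) ^ 2 ≤ c4 / N := by
        apply div_le_div_of_nonneg_left hc4 hN0
        nlinarith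
      rw [add_div]; linarith
    have hz1 : |z| ≤ (3 + c4) / 6 * r ^ 2 * t ^ 4 := by
      rw [hz, abs_div, abs_mul, abs_mul, abs_of_nonneg hQ0, abs_of_nonneg (show (0:ℝ) ≤ t ^ 4 by positivity),
        abs_of_pos (show (0:ℝ) < 24 by norm_num)]
      calc |κ| * t ^ 4 * Q / 24 ≤ (4 * lam ^ 2) * t ^ 4 * ((3 + c4) / N) / 24 := by gcongr
        _ = (3 + c4) / 6 * r ^ 2 * t ^ 4 := by
          rw [← hrl, ← hsN2]; field_simp; ring
    have hz2 : |z| ≤ t ^ 2 / 8 := by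
      refine hz1.trans ?_
      have : (3 + c4) / 6 * r ^ 2 * t ^ 4 = ((3 + c4) * (r * t) ^ 2) * (t ^ 2 / 6) := by ring
      rw [this]
      calc ((3 + c4) * (r * t) ^ 2) * (t ^ 2 / 6) ≤ (3 / 4) * (t ^ 2 / 6) := by gcongr
        _ = t ^ 2 / 8 := by ring
    have hzz : |z - κ * t ^ 4 / (8 * N)| ≤ c4 / 6 * t ^ 4 * r ^ 3 := by
      have e2 : z - κ * t ^ 4 / (8 * N) = κ * t ^ 4 * (Q - 3 / N) / 24 := by
        rw [hz]; field_simp; ring
      rw [e2, abs_div, abs_mul, abs_mul, abs_of_nonneg (show (0:ℝ) ≤ t ^ 4 by positivity),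
        abs_of_pos (show (0:ℝ) < 24 by norm_num)]
      have hNr : 1 / (N:ℝ) ≤ r := by
        rw [hr, ← hsN2]
        rw [div_le_div_iff₀ (by positivity) hsN0]
        nlinarith
      calc |κ| * t ^ 4 * |Q - 3 / N| / 24 ≤ (4 * lam ^ 2) * t ^ 4 * (c4 / N ^ 2) / 24 := by gcongr
        _ = c4 / 6 * t ^ 4 * r ^ 2 * (1 / N) := by
          rw [← hrl, ← hsN2]; field_simp; ring
        _ ≤ c4 / 6 * t ^ 4 * r ^ 2 * r := by gcongr
        _ = c4 / 6 * t ^ 4 * r ^ 3 := by ring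
    have e3 : Real.exp (-t ^ 2 / 2) * Real.exp z - gg κ N t =
        Real.exp (-t ^ 2 / 2) * ((Real.exp z - 1 - z) + (z - κ * t ^ 4 / (8 * N))) := by
      unfold gg; ring
    rw [e3, abs_mul, abs_of_pos (Real.exp_pos _)]
    have e4 := exp_real_bound z
    have e5 : Real.exp |z| ≤ Real.exp (t ^ 2 / 8) := Real.exp_le_exp.mpr hz2
    have e6 : Real.exp (-t ^ 2 / 2) ≤ Real.exp (-t ^ 2 / 4) := Real.exp_le_exp.mpr (by nlinarith [sq_nonneg t])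
    have e7 : Real.exp (-t ^ 2 / 2) * Real.exp (t ^ 2 / 8) ≤ Real.exp (-t ^ 2 / 4) := by
      rw [← Real.exp_add]; exact Real.exp_le_exp.mpr (by nlinarith [sq_nonneg t])
    have e8 : z ^ 2 ≤ ((3 + c4) / 6) ^ 2 * t ^ 8 * r ^ 3 := by
      rw [← sq_abs]
      calc |z| ^ 2 ≤ ((3 + c4) / 6 * r ^ 2 * t ^ 4) ^ 2 := by gcongr
        _ = ((3 + c4) / 6) ^ 2 * t ^ 8 * r ^ 3 * r := by ring
        _ ≤ ((3 + c4) / 6) ^ 2 * t ^ 8 * r ^ 3 * 1 := by gcongr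
        _ = _ := by ring
    calc Real.exp (-t ^ 2 / 2) * |(Real.exp z - 1 - z) + (z - κ * t ^ 4 / (8 * N))|
        ≤ Real.exp (-t ^ 2 / 2) * (z ^ 2 * Real.exp |z| + c4 / 6 * t ^ 4 * r ^ 3) := by
          apply mul_le_mul_of_nonneg_left _ (Real.exp_pos _).le
          exact (abs_add_le _ _).trans (add_le_add e4 hzz)
      _ ≤ Real.exp (-t ^ 2 / 2) * ((((3 + c4) / 6) ^ 2 * t ^ 8 * r ^ 3) * Real.exp (t ^ 2 / 8) + c4 / 6 * t ^ 4 * r ^ 3) := by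
          gcongr
      _ = (Real.exp (-t ^ 2 / 2) * Real.exp (t ^ 2 / 8)) * (((3 + c4) / 6) ^ 2 * t ^ 8 * r ^ 3) +
          Real.exp (-t ^ 2 / 2) * (c4 / 6 * t ^ 4 * r ^ 3) := by ring
      _ ≤ Real.exp (-t ^ 2 / 4) * (((3 + c4) / 6) ^ 2 * t ^ 8 * r ^ 3) +
          Real.exp (-t ^ 2 / 4) * (c4 / 6 * t ^ 4 * r ^ 3) := by gcongr
      _ = _ := by ring
  have e9 := norm_add_le (∏ n ∈ S, charFun μ (θ n * t) - ∏ n ∈ S, (Real.exp (vv μ (θ n * t)) : ℂ))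
    (∏ n ∈ S, (Real.exp (vv μ (θ n * t)) : ℂ) - (gg κ N t : ℂ))
  rw [sub_add_sub_cancel] at e9
  refine (e9.trans (add_le_add step1 step2)).trans (le_of_eq ?_)
  ring

theorem high_range (h : Mom μ lam) (S : Finset ℕ) (θ : ℕ → ℝ) (I : Finset ℕ) (q : ℕ) (d t : ℝ)
    (hI : I ⊆ S) (hIq : ∀ n ∈ I, n + q ∈ S) (hd : ∀ n ∈ I, θ (n + q) - θ n = d)
    (hdt : |d * t| * lam ≤ 1 / 4) :
    ‖∏ n ∈ S, charFun μ (θ n * t)‖ ^ 2 ≤ Real.exp (-(I.card * (d * t) ^ 2 / 16)) := by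
  have := h.prob
  set Φ : ℕ → ℝ := fun n => 1 - ‖charFun μ (θ n * t)‖ ^ 2 with hΦ
  have hΦ0 : ∀ n, 0 ≤ Φ n := by
    intro n
    have h1 := norm_charFun_le_one (μ := μ) (θ n * t)
    have h2 := norm_nonneg (charFun μ (θ n * t))
    simp only [hΦ]
    nlinarith
  have h1 : ∑ n ∈ I, Φ n ≤ ∑ n ∈ S, Φ n := Finset.sum_le_sum_of_subset_of_nonneg hI (fun n _ _ => hΦ0 n)
  have h2 : ∑ n ∈ I, Φ (n + q) ≤ ∑ n ∈ S, Φ n := by
    have e1 : ∑ n ∈ I, Φ (n + q) = ∑ n ∈ I.map (addRightEmbedding q), Φ n := by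
      rw [Finset.sum_map]; rfl
    rw [e1]
    apply Finset.sum_le_sum_of_subset_of_nonneg _ (fun n _ _ => hΦ0 n)
    intro n hn
    rw [Finset.mem_map] at hn
    obtain ⟨m, hm, rfl⟩ := hn
    exact hIq m hm
  have h3 : ∀ n ∈ I, (d * t) ^ 2 / 8 ≤ Φ n + Φ (n + q) := by
    intro n hn
    have e1 := pair_ineq (μ := μ) (θ (n + q) * t) (θ n * t)
    have e2 : θ (n + q) * t - θ n * t = d * t := by rw [← sub_mul, hd n hn]
    rw [e2] at e1
    have e3 := h.gap (d * t) hdt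
    simp only [hΦ]
    linarith
  have h4 : (I.card : ℝ) * ((d * t) ^ 2 / 8) ≤ ∑ n ∈ I, (Φ n + Φ (n + q)) := by
    rw [← nsmul_eq_mul]
    exact Finset.card_nsmul_le_sum I _ _ h3
  rw [Finset.sum_add_distrib] at h4
  rw [norm_prod, ← Finset.prod_pow]
  have h5 : ∏ n ∈ S, ‖charFun μ (θ n * t)‖ ^ 2 ≤ ∏ n ∈ S, Real.exp (-Φ n) := by
    apply Finset.prod_le_prod (fun _ _ => by positivity)
    intro n _
    have := Real.add_one_le_exp (-Φ n)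
    simp only [hΦ] at this ⊢
    linarith
  refine h5.trans ?_
  rw [← Real.exp_sum, Finset.sum_neg_distrib]
  apply Real.exp_le_exp.mpr
  linarith

end Pool.Agent.R361.EW
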