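import Pool.Agent.R361.EW.Kernel

open MeasureTheory Set Filter Topology

namespace Pool.Agent.R361.EW

lemma KT_integrable (T : ℝ) (hT : 0 < T) : Integrable (fun y => K (T * y)) :=
  K_integrable.comp_mul_left' hT.ne'

lemma fub_a (m : Measure ℝ) [SFinite m] (ρ : ℝ → ℝ) (hρ : Integrable ρ m) (T x : ℝ) (hT : 0 < T) :
    Integrable (Function.uncurry fun y s => (Set.indicator {p : ℝ × ℝ | p.2 ≤ x - p.1}
      (fun p => K (T * p.1) * ρ p.2)) (y, s)) (volume.prod m) := by
  have h1 : Integrable (fun p : ℝ × ℝ => K (T * p.1) * ρ p.2) (volume.prod m) :=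
    (KT_integrable T hT).mul_prod hρ
  have h2 : MeasurableSet {p : ℝ × ℝ | p.2 ≤ x - p.1} := by
    apply measurableSet_le <;> fun_prop
  exact h1.indicator h2

lemma fub_b (m : Measure ℝ) [SFinite m] (ρ : ℝ → ℝ) (hρ : Integrable ρ m)
    (hρ1 : Integrable (fun s => |s| * ρ s) m) (T x : ℝ) :
    Integrable (Function.uncurry fun u s => (1 - u) * ((x - s) * Real.sinc (u * T * (x - s)) * ρ s))
      ((volume.restrict (Set.uIoc (0:ℝ) 1)).prod m) := by
  have h0 : Integrable (fun s => (|x| + |s|) * |ρ s|) m := by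
    have : Integrable (fun s => |x| * |ρ s| + |(|s| * ρ s)|) m := (hρ.abs.const_mul |x|).add hρ1.abs
    refine this.congr (Eventually.of_forall (fun s => ?_))
    simp only [abs_mul, abs_abs]; ring
  have h1 : Integrable (fun p : ℝ × ℝ => (1 : ℝ) * ((|x| + |p.2|) * |ρ p.2|))
      ((volume.restrict (Set.uIoc (0:ℝ) 1)).prod m) := by
    apply Integrable.mul_prod (f := fun _ : ℝ => (1:ℝ)) (g := fun s => (|x| + |s|) * |ρ s|) _ h0
    have : IsFiniteMeasure (volume.restrict (Set.uIoc (0:ℝ) 1)) := by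
      rw [Set.uIoc_of_le (by norm_num)]; infer_instance
    exact integrable_const _
  have hm : AEStronglyMeasurable (fun p : ℝ × ℝ => ρ p.2)
      ((volume.restrict (Set.uIoc (0:ℝ) 1)).prod m) := hρ.aestronglyMeasurable.comp_snd
  have hm2 : AEStronglyMeasurable (Function.uncurry fun u s => (1 - u) * ((x - s) * Real.sinc (u * T * (x - s)) * ρ s))
      ((volume.restrict (Set.uIoc (0:ℝ) 1)).prod m) := by
    have hc : Continuous (fun p : ℝ × ℝ => (1 - p.1) * ((x - p.2) * Real.sinc (p.1 * T * (x - p.2)))) := by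
      have := Real.continuous_sinc
      fun_prop
    have := hc.aestronglyMeasurable.mul hm
    refine this.congr (Eventually.of_forall (fun p => ?_))
    simp only [Function.uncurry_def, Pi.mul_apply]
    ring
  refine h1.mono' hm2 ?_
  have hae : ∀ᵐ p ∂((volume.restrict (Set.uIoc (0:ℝ) 1)).prod m), p.1 ∈ Set.uIoc (0:ℝ) 1 := by
    have h3 : ∀ᵐ u ∂(volume.restrict (Set.uIoc (0:ℝ) 1)), u ∈ Set.uIoc (0:ℝ) 1 :=
      ae_restrict_mem measurableSet_uIoc
    exact Measure.quasiMeasurePreserving_fst.ae h3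
  filter_upwards [hae] with p hp
  rw [Set.uIoc_of_le (by norm_num)] at hp
  simp only [Function.uncurry_def, norm_mul, Real.norm_eq_abs, one_mul]
  have h4 : |1 - p.1| ≤ 1 := by
    rw [abs_le]; constructor <;> linarith [hp.1, hp.2]
  have h5 : |x - p.2| ≤ |x| + |p.2| := abs_sub _ _
  have h6 : |Real.sinc (p.1 * T * (x - p.2))| ≤ 1 := Real.abs_sinc_le_one _
  calc |1 - p.1| * (|x - p.2| * |Real.sinc (p.1 * T * (x - p.2))| * |ρ p.2|)
      ≤ 1 * ((|x| + |p.2|) * 1 * |ρ p.2|) := by gcongr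
    _ = _ := by ring

lemma fub (m : Measure ℝ) [SFinite m] (ρ : ℝ → ℝ) (hρ : Integrable ρ m)
    (hρ1 : Integrable (fun s => |s| * ρ s) m) (T x : ℝ) (hT : 0 < T) :
    ∫ y, (∫ s in Iic (x - y), ρ s ∂m) * K (T * y) =
      (∫ y in Iic (0:ℝ), K (T * y)) * (∫ s, ρ s ∂m) +
      ∫ u in (0:ℝ)..1, (1 - u) * ∫ s, (x - s) * Real.sinc (u * T * (x - s)) * ρ s ∂m := by
  have h1 : ∫ y, (∫ s in Iic (x - y), ρ s ∂m) * K (T * y) =
      ∫ y, ∫ s, (Set.indicator {p : ℝ × ℝ | p.2 ≤ x - p.1}
      (fun p => K (T * p.1) * ρ p.2)) (y, s) ∂m := by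
    congr 1
    ext y
    rw [← integral_indicator measurableSet_Iic, mul_comm, ← integral_const_mul]
    congr 1
    ext s
    by_cases h : s ≤ x - y
    · rw [Set.indicator_of_mem (by exact h), Set.indicator_of_mem (by exact h)]
    · rw [Set.indicator_of_notMem (by exact h), Set.indicator_of_notMem (by exact h), mul_zero]
  rw [h1, integral_integral_swap (fub_a m ρ hρ T x hT)]
  have h2 : ∀ s, ∫ y, (Set.indicator {p : ℝ × ℝ | p.2 ≤ x - p.1}
      (fun p => K (T * p.1) * ρ p.2)) (y, s) = (∫ y in Iic (0:ℝ), K (T * y)) * ρ s +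
        ∫ u in (0:ℝ)..1, (1 - u) * ((x - s) * Real.sinc (u * T * (x - s)) * ρ s) := by
    intro s
    have h3 : ∫ y, (Set.indicator {p : ℝ × ℝ | p.2 ≤ x - p.1}
      (fun p => K (T * p.1) * ρ p.2)) (y, s) = ρ s * ∫ y in Iic (x - s), K (T * y) := by
      rw [← integral_indicator measurableSet_Iic, ← integral_const_mul]
      congr 1
      ext y
      by_cases h : s ≤ x - y
      · rw [Set.indicator_of_mem (by exact h), Set.indicator_of_mem (by rw [mem_Iic]; linarith)]
        ring
      · rw [Set.indicator_of_notMem (by exact h), Set.indicator_of_notMem (by rw [mem_Iic]; push Not at h ⊢; linarith), mul_zero]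
    have h4 := intervalIntegral.integral_Iic_sub_Iic (μ := volume) (f := fun y => K (T * y)) (a := 0) (b := x - s)
      (KT_integrable T hT).integrableOn (KT_integrable T hT).integrableOn
    rw [prim] at h4
    rw [h3, eq_add_of_sub_eq h4]
    have h5 : ∫ u in (0:ℝ)..1, (1 - u) * ((x - s) * Real.sinc (u * T * (x - s)) * ρ s) =
        (∫ u in (0:ℝ)..1, (1 - u) * ((x - s) * Real.sinc (u * T * (x - s)))) * ρ s := by
      rw [← intervalIntegral.integral_mul_const]
      congr 1; ext u; ring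
    rw [h5]
    ring
  simp_rw [h2]
  rw [integral_add (hρ.const_mul _), integral_const_mul]
  · congr 1
    rw [← intervalIntegral_integral_swap (fub_b m ρ hρ hρ1 T x)]
    congr 1; ext u
    rw [integral_const_mul]
  · have := (fub_b m ρ hρ hρ1 T x).integral_prod_right
    simp only [Function.uncurry_apply_pair] at this
    refine this.congr (Eventually.of_forall (fun s => ?_))
    simp only
    rw [intervalIntegral.intervalIntegral_eq_integral_uIoc]
    simp

end Pool.Agent.R361.EW
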