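import Pool.Agent.R361.EW.Fub

open MeasureTheory Set Filter Topology

namespace Pool.Agent.R361.EW

noncomputable def cf (m : Measure ℝ) (ρ : ℝ → ℝ) (τ : ℝ) : ℂ :=
  ∫ s, Complex.exp (τ * s * Complex.I) * (ρ s : ℂ) ∂m

lemma exp_integrable (m : Measure ℝ) (ρ : ℝ → ℝ) (hρ : Integrable ρ m) (τ : ℝ) :
    Integrable (fun s : ℝ => Complex.exp (τ * s * Complex.I) * (ρ s : ℂ)) m := by
  have h1 : Integrable (fun s => (ρ s : ℂ)) m := hρ.ofReal
  refine h1.bdd_mul (c := 1) (by fun_prop) (Eventually.of_forall (fun s => ?_))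
  have : (τ * s * Complex.I : ℂ) = ((τ * s : ℝ) : ℂ) * Complex.I := by push_cast; ring
  rw [this, Complex.norm_exp_ofReal_mul_I]

lemma sin_part (m : Measure ℝ) (ρ : ℝ → ℝ) (hρ : Integrable ρ m) (τ x : ℝ) :
    ∫ s, Real.sin (τ * (x - s)) * ρ s ∂m =
      -(Complex.exp (-(τ * x) * Complex.I) * cf m ρ τ).im := by
  unfold cf
  rw [← integral_const_mul]
  have h1 := integral_im (μ := m) (𝕜 := ℂ) ((exp_integrable m ρ hρ τ).const_mul (Complex.exp (-(τ * x) * Complex.I)))
  simp only [RCLike.im_to_complex] at h1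
  rw [← h1, ← integral_neg]
  congr 1
  ext s
  rw [← mul_assoc, ← Complex.exp_add]
  have : (-(τ * x) * Complex.I + τ * s * Complex.I : ℂ) = ((τ * (s - x) : ℝ) : ℂ) * Complex.I := by
    push_cast; ring
  rw [this, Complex.mul_im, Complex.exp_ofReal_mul_I_re, Complex.exp_ofReal_mul_I_im]
  simp only [Complex.ofReal_re, Complex.ofReal_im, mul_zero, zero_add]
  rw [show τ * (x - s) = -(τ * (s - x)) by ring, Real.sin_neg]
  ring

lemma sinc_part (m : Measure ℝ) (ρ : ℝ → ℝ) (hρ : Integrable ρ m) (T u x : ℝ) (hT : 0 < T) (hu : 0 < u) :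
    ∫ s, (x - s) * Real.sinc (u * T * (x - s)) * ρ s ∂m =
      -(1 / (u * T)) * (Complex.exp (-((u * T : ℝ) * x) * Complex.I) * cf m ρ (u * T)).im := by
  have h1 := sin_part m ρ hρ (u * T) x
  have h2 : ∫ s, (x - s) * Real.sinc (u * T * (x - s)) * ρ s ∂m =
      (1 / (u * T)) * ∫ s, Real.sin (u * T * (x - s)) * ρ s ∂m := by
    rw [← integral_const_mul]
    congr 1
    ext s
    by_cases h : x - s = 0
    · simp [h]
    · rw [Real.sinc_of_ne_zero (by positivity)]
      field_simp
  rw [h2, h1]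
  push_cast
  ring

lemma fub_int (m : Measure ℝ) [SFinite m] (ρ : ℝ → ℝ) (hρ : Integrable ρ m) (T x : ℝ) (hT : 0 < T) :
    Integrable (fun y => (∫ s in Iic (x - y), ρ s ∂m) * K (T * y)) := by
  have h1 := (fub_a m ρ hρ T x hT).integral_prod_left
  refine h1.congr (Eventually.of_forall (fun y => ?_))
  simp only [Function.uncurry_apply_pair]
  rw [← integral_indicator measurableSet_Iic, mul_comm, ← integral_const_mul]
  congr 1
  ext s
  by_cases h : s ≤ x - y
  · rw [Set.indicator_of_mem (by exact h), Set.indicator_of_mem (by exact h)]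
  · rw [Set.indicator_of_notMem (by exact h), Set.indicator_of_notMem (by exact h), mul_zero]

lemma int_b (m : Measure ℝ) [SFinite m] (ρ : ℝ → ℝ) (hρ : Integrable ρ m)
    (hρ1 : Integrable (fun s => |s| * ρ s) m) (T x : ℝ) :
    IntervalIntegrable (fun u => (1 - u) * ∫ s, (x - s) * Real.sinc (u * T * (x - s)) * ρ s ∂m)
      volume 0 1 := by
  have h1 := (fub_b m ρ hρ hρ1 T x).integral_prod_left
  rw [intervalIntegrable_iff]
  refine h1.congr (Eventually.of_forall (fun u => ?_))
  simp only [Function.uncurry_apply_pair]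
  rw [integral_const_mul]

lemma conv_diff (μ : Measure ℝ) [IsProbabilityMeasure μ] (γ : ℝ → ℝ) (T : ℝ) (B : ℝ → ℝ)
    (h1 : Integrable (fun s => |s|) μ) (h2 : Integrable γ) (h3 : Integrable (fun s => |s| * γ s))
    (h4 : ∫ s, γ s = 1) (hT : 0 < T) (hB : IntervalIntegrable B volume 0 T)
    (hb : ∀ τ ∈ Ioc 0 T, ‖cf μ (fun _ => 1) τ - cf volume γ τ‖ ≤ τ * B τ) (x : ℝ) :
    |∫ y, (μ.real (Iic (x - y)) - ∫ s in Iic (x - y), γ s) * K (T * y)| ≤
      (∫ τ in (0:ℝ)..T, B τ) / T := by
  have i1 : Integrable (fun _ : ℝ => (1:ℝ)) μ := integrable_const 1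
  have i2 : Integrable (fun s => |s| * (fun _ : ℝ => (1:ℝ)) s) μ := by simpa using h1
  have e1 : ∀ y, ∫ s in Iic (x - y), (fun _ : ℝ => (1:ℝ)) s ∂μ = μ.real (Iic (x - y)) := by
    intro y; simp
  have f1 := fub μ (fun _ => 1) i1 i2 T x hT
  have f2 := fub volume γ h2 h3 T x hT
  have g1 := fub_int μ (fun _ => 1) i1 T x hT
  have g2 := fub_int volume γ h2 T x hT
  simp only [e1] at f1 g1
  have e2 : ∫ y, (μ.real (Iic (x - y)) - ∫ s in Iic (x - y), γ s) * K (T * y) =
      ∫ u in (0:ℝ)..1, ((1 - u) * (∫ s, (x - s) * Real.sinc (u * T * (x - s)) * (fun _ : ℝ => (1:ℝ)) s ∂μ) -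
        (1 - u) * (∫ s, (x - s) * Real.sinc (u * T * (x - s)) * γ s)) := by
    have e0 : ∀ y, (μ.real (Iic (x - y)) - ∫ s in Iic (x - y), γ s) * K (T * y) =
        μ.real (Iic (x - y)) * K (T * y) - (∫ s in Iic (x - y), γ s) * K (T * y) :=
      fun y => sub_mul _ _ _
    simp only [e0]
    rw [integral_sub g1 g2, f1, f2, intervalIntegral.integral_sub (int_b μ _ i1 i2 T x) (int_b volume γ h2 h3 T x), h4]
    simp
  rw [e2]
  have hcomp : ∫ u in (0:ℝ)..1, B (u * T) = (∫ τ in (0:ℝ)..T, B τ) / T := by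
    rw [intervalIntegral.integral_comp_mul_right _ hT.ne']
    simp
    ring
  rw [← hcomp, ← Real.norm_eq_abs]
  apply intervalIntegral.norm_integral_le_of_norm_le (by norm_num)
  · refine Eventually.of_forall (fun u hu => ?_)
    rw [sinc_part μ _ i1 T u x hT hu.1, sinc_part volume γ h2 T u x hT hu.1]
    have hb' := hb (u * T) ⟨mul_pos hu.1 hT, by nlinarith [hu.2]⟩
    have huT : 0 < u * T := mul_pos hu.1 hT
    set z := Complex.exp (-((u * T : ℝ) * x) * Complex.I) with hz
    have hz1 : ‖z‖ = 1 := by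
      have : (-((u * T : ℝ) * x) * Complex.I : ℂ) = ((-(u * T * x) : ℝ) : ℂ) * Complex.I := by
        push_cast; ring
      rw [hz, this, Complex.norm_exp_ofReal_mul_I]
    have e3 : (1 - u) * (-(1 / (u * T)) * (z * cf μ (fun _ => 1) (u * T)).im) -
        (1 - u) * (-(1 / (u * T)) * (z * cf volume γ (u * T)).im) =
        -((1 - u) * (1 / (u * T))) * (z * (cf μ (fun _ => 1) (u * T) - cf volume γ (u * T))).im := by
      rw [mul_sub, Complex.sub_im]; ring
    rw [e3, norm_mul, Real.norm_eq_abs, Real.norm_eq_abs, abs_neg, abs_mul]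
    have e4 : |(z * (cf μ (fun _ => 1) (u * T) - cf volume γ (u * T))).im| ≤ u * T * B (u * T) := by
      refine (Complex.abs_im_le_norm _).trans ?_
      rw [norm_mul, hz1, one_mul]; exact hb'
    have e5 : |1 - u| ≤ 1 := by rw [abs_le]; constructor <;> linarith [hu.1, hu.2]
    have e6 : |1 / (u * T)| = 1 / (u * T) := abs_of_pos (by positivity)
    rw [e6]
    have e7 : 0 ≤ u * T * B (u * T) := (norm_nonneg _).trans hb'
    calc |1 - u| * (1 / (u * T)) * |(z * (cf μ (fun _ => 1) (u * T) - cf volume γ (u * T))).im|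
        ≤ 1 * (1 / (u * T)) * (u * T * B (u * T)) := by gcongr
      _ = B (u * T) := by
        have := hu.1.ne'
        field_simp
  · have := hB.comp_mul_right (c := T)
    simpa [hT.ne'] using this

lemma sup_arg (μ : Measure ℝ) [IsProbabilityMeasure μ] (γ : ℝ → ℝ) (L T R J η ε x1 σ : ℝ)
    (h2 : Integrable γ) (hT : 0 < T) (hR : 0 < R) (hη : 0 ≤ η)
    (hε : 0 ≤ ε) (hL : 0 ≤ L) (hRk : (3/4) * kap ≤ ∫ x in (-R)..R, K x)
    (hJ : σ * (∫ y, (μ.real (Iic (x1 - y)) - ∫ s in Iic (x1 - y), γ s) * K (T * y)) ≤ J)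
    (hin : ∀ y, |y| ≤ R / T → η - ε - 2 * L * (R / T) ≤ σ * (μ.real (Iic (x1 - y)) - ∫ s in Iic (x1 - y), γ s))
    (hout : ∀ y, - η ≤ σ * (μ.real (Iic (x1 - y)) - ∫ s in Iic (x1 - y), γ s)) :
    η / 2 * kap ≤ J * T + 2 * L * (R / T) * kap + ε * kap := by
  have hRT : 0 < R / T := by positivity
  set a := η - ε - 2 * L * (R / T) with ha
  have haη : a ≤ η := by
    have : 0 ≤ 2 * L * (R / T) := by positivity
    linarith
  have k1 := KT_integrable T hT
  have i1 : Integrable (fun _ : ℝ => (1:ℝ)) μ := integrable_const 1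
  have g1 := fub_int μ (fun _ => 1) i1 T x1 hT
  have g2 := fub_int volume γ h2 T x1 hT
  have e1 : ∀ y, ∫ s in Iic (x1 - y), (fun _ : ℝ => (1:ℝ)) s ∂μ = μ.real (Iic (x1 - y)) := by
    intro y; simp
  simp only [e1] at g1
  have g3 : Integrable (fun y => σ * ((μ.real (Iic (x1 - y)) - ∫ s in Iic (x1 - y), γ s) * K (T * y))) := by
    apply Integrable.const_mul
    refine (g1.sub g2).congr (Eventually.of_forall (fun y => ?_))
    simp only [Pi.sub_apply]
    ring
  have g4 : Integrable (fun y => (a - 2 * η) * K (T * y) +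
      2 * η * (Set.indicator (Ioc (-(R/T)) (R/T)) (fun y => K (T * y))) y) :=
    (k1.const_mul _).add ((k1.indicator measurableSet_Ioc).const_mul _)
  have hle : ∫ y, ((a - 2 * η) * K (T * y) +
      2 * η * (Set.indicator (Ioc (-(R/T)) (R/T)) (fun y => K (T * y))) y) ≤
      ∫ y, σ * ((μ.real (Iic (x1 - y)) - ∫ s in Iic (x1 - y), γ s) * K (T * y)) := by
    apply integral_mono g4 g3
    intro y
    simp only
    have hk := K_nonneg (T * y)
    rw [← mul_assoc]
    by_cases hy : y ∈ Ioc (-(R/T)) (R/T)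
    · rw [Set.indicator_of_mem hy]
      have h5 := hin y (abs_le.mpr ⟨hy.1.le, hy.2⟩)
      have h6 := mul_le_mul_of_nonneg_right h5 hk
      linarith
    · rw [Set.indicator_of_notMem hy]
      have h5 := mul_le_mul_of_nonneg_right (hout y) hk
      have h6 := mul_le_mul_of_nonneg_right haη hk
      nlinarith
  rw [integral_const_mul] at hle
  have hval : ∫ y, ((a - 2 * η) * K (T * y) +
      2 * η * (Set.indicator (Ioc (-(R/T)) (R/T)) (fun y => K (T * y))) y) =
      (a - 2 * η) * (kap / T) + 2 * η * ((∫ x in (-R)..R, K x) / T) := by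
    rw [integral_add (k1.const_mul _) ((k1.indicator measurableSet_Ioc).const_mul _),
      integral_const_mul, integral_const_mul, integral_indicator measurableSet_Ioc,
      ← intervalIntegral.integral_of_le (by linarith), Measure.integral_comp_mul_left,
      intervalIntegral.integral_comp_mul_left _ hT.ne', abs_of_pos (by positivity)]
    have : T * (R / T) = R := by field_simp
    rw [mul_neg, this]
    unfold kap
    simp only [smul_eq_mul]
    ring
  rw [hval] at hle
  have h7 : (a - 2 * η) * (kap / T) + 2 * η * ((3/4) * kap / T) ≤ J := by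
    refine le_trans ?_ (hle.trans hJ)
    gcongr
  have h8 := mul_le_mul_of_nonneg_right h7 hT.le
  have h9 : ((a - 2 * η) * (kap / T) + 2 * η * ((3/4) * kap / T)) * T = (a - η / 2) * kap := by
    field_simp; ring
  rw [h9, ha] at h8
  linarith

theorem smoothing : ∃ C : ℝ, 0 < C ∧ ∀ (μ : Measure ℝ) [IsProbabilityMeasure μ] (γ : ℝ → ℝ) (L T : ℝ)
    (B : ℝ → ℝ), Integrable (fun s => |s|) μ → Integrable γ → Integrable (fun s => |s| * γ s) →
    (∫ s, γ s = 1) → (∀ s, |γ s| ≤ L) → 0 < T → IntervalIntegrable B volume 0 T →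
    (∀ τ ∈ Ioc 0 T, ‖cf μ (fun _ => 1) τ - cf volume γ τ‖ ≤ τ * B τ) →
    ∀ x, |μ.real (Iic x) - ∫ s in Iic x, γ s| ≤ C * ((∫ τ in (0:ℝ)..T, B τ) + L / T) := by
  obtain ⟨R, hR, hRk⟩ := exists_R
  refine ⟨2 / kap + 4 * R, by have := kap_pos; positivity, ?_⟩
  intro μ _ γ L T B h1 h2 h3 h4 hL hT hB hb x
  have hkap := kap_pos
  have hL0 : 0 ≤ L := (abs_nonneg _).trans (hL 0)
  set D : ℝ → ℝ := fun x => μ.real (Iic x) - ∫ s in Iic x, γ s with hD
  have hbd : ∀ x, |D x| ≤ 1 + ∫ s, |γ s| := by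
    intro x
    have b1 : |μ.real (Iic x)| ≤ 1 := by
      rw [abs_of_nonneg measureReal_nonneg]; exact measureReal_le_one
    have b2 : |∫ s in Iic x, γ s| ≤ ∫ s, |γ s| := by
      refine (abs_integral_le_integral_abs).trans ?_
      exact setIntegral_le_integral h2.abs (Eventually.of_forall (fun s => abs_nonneg _))
    exact (abs_sub _ _).trans (add_le_add b1 b2)
  have hbdd : BddAbove (Set.range fun x => |D x|) := ⟨1 + ∫ s, |γ s|, by
    rintro _ ⟨x, rfl⟩; exact hbd x⟩
  set η := ⨆ x, |D x| with hη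
  have hDη : ∀ x, |D x| ≤ η := fun x => le_ciSup hbdd x
  have hη0 : 0 ≤ η := (abs_nonneg _).trans (hDη 0)
  -- monotonicity properties
  have hFmono : ∀ a b, a ≤ b → μ.real (Iic a) ≤ μ.real (Iic b) :=
    fun a b hab => measureReal_mono (Iic_subset_Iic.mpr hab)
  have hG : ∀ a b, a ≤ b → |(∫ s in Iic b, γ s) - ∫ s in Iic a, γ s| ≤ L * (b - a) := by
    intro a b hab
    rw [intervalIntegral.integral_Iic_sub_Iic h2.integrableOn h2.integrableOn, ← Real.norm_eq_abs]
    refine (intervalIntegral.norm_integral_le_of_norm_le_const (C := L) (fun s _ => ?_)).trans ?_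
    · rw [Real.norm_eq_abs]; exact hL s
    · rw [abs_of_nonneg (by linarith)]
  have hBI : 0 ≤ ∫ τ in (0:ℝ)..T, B τ := by
    apply intervalIntegral.integral_nonneg_of_ae_restrict hT.le
    rw [EventuallyLE, ae_restrict_iff' measurableSet_Icc]
    have : ∀ᵐ τ : ℝ, τ ≠ 0 := by
      have : ({0}ᶜ : Set ℝ) ∈ ae volume := compl_mem_ae_iff.mpr (by simp)
      filter_upwards [this] with τ hτ using hτ
    filter_upwards [this] with τ hτ hτ2
    have hpos : 0 < τ := lt_of_le_of_ne hτ2.1 (Ne.symm hτ)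
    have h5 := (norm_nonneg _).trans (hb τ ⟨hpos, hτ2.2⟩)
    simp only [Pi.zero_apply]
    by_contra hneg
    push Not at hneg
    nlinarith
  -- key bound
  have key : ∀ ε > 0, η / 2 * kap ≤ (∫ τ in (0:ℝ)..T, B τ) / T * T + 2 * L * (R / T) * kap + ε * kap := by
    intro ε hε
    obtain ⟨x0, hx0⟩ := exists_lt_of_lt_ciSup (show η - ε < ⨆ x, |D x| by rw [← hη]; linarith)
    rcases le_or_gt 0 (D x0) with hs | hs
    · rw [abs_of_nonneg hs] at hx0
      refine sup_arg μ γ L T R _ η ε (x0 + R / T) 1 h2 hT hR hη0 hε.le hL0 hRk ?_ ?_ ?_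
      · rw [one_mul]
        exact (le_abs_self _).trans (conv_diff μ γ T B h1 h2 h3 h4 hT hB hb _)
      · intro y hy
        rw [abs_le] at hy
        rw [one_mul]
        have m1 := hFmono x0 (x0 + R / T - y) (by linarith)
        have m2 := hG x0 (x0 + R / T - y) (by linarith)
        rw [abs_le] at m2
        have m3 : L * (x0 + R / T - y - x0) ≤ L * (2 * (R / T)) := by
          apply mul_le_mul_of_nonneg_left _ hL0; linarith
        simp only [hD] at hx0
        linarith [m2.2]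
      · intro y
        rw [one_mul]
        have := hDη (x0 + R / T - y)
        rw [abs_le] at this
        exact this.1
    · rw [abs_of_neg hs] at hx0
      refine sup_arg μ γ L T R _ η ε (x0 - R / T) (-1) h2 hT hR hη0 hε.le hL0 hRk ?_ ?_ ?_
      · rw [neg_one_mul]
        exact (neg_le_abs _).trans (conv_diff μ γ T B h1 h2 h3 h4 hT hB hb _)
      · intro y hy
        rw [abs_le] at hy
        rw [neg_one_mul]
        have m1 := hFmono (x0 - R / T - y) x0 (by linarith)
        have m2 := hG (x0 - R / T - y) x0 (by linarith)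
        rw [abs_le] at m2
        have m3 : L * (x0 - (x0 - R / T - y)) ≤ L * (2 * (R / T)) := by
          apply mul_le_mul_of_nonneg_left _ hL0; linarith
        simp only [hD] at hx0
        linarith [m2.2]
      · intro y
        rw [neg_one_mul]
        have := hDη (x0 - R / T - y)
        rw [abs_le] at this
        linarith [this.2]
  have key2 : η / 2 * kap ≤ (∫ τ in (0:ℝ)..T, B τ) + 2 * L * (R / T) * kap := by
    have h6 : (∫ τ in (0:ℝ)..T, B τ) / T * T = ∫ τ in (0:ℝ)..T, B τ := by field_simp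
    apply le_of_forall_pos_le_add
    intro ε hε
    have := key (ε / kap) (by positivity)
    rw [h6] at this
    have h7 : ε / kap * kap = ε := by field_simp
    linarith
  refine (hDη x).trans ?_
  have h8 : η = (η / 2 * kap) * (2 / kap) := by field_simp
  rw [h8]
  have h9 := mul_le_mul_of_nonneg_right key2 (show 0 ≤ 2 / kap by positivity)
  refine h9.trans ?_
  have h10 : ((∫ τ in (0:ℝ)..T, B τ) + 2 * L * (R / T) * kap) * (2 / kap) =
      (2 / kap) * (∫ τ in (0:ℝ)..T, B τ) + (4 * R) * (L / T) := by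
    field_simp; ring
  rw [h10]
  have p1 : 0 ≤ (2 / kap) * (L / T) := by positivity
  have p2 : 0 ≤ (4 * R) * (∫ τ in (0:ℝ)..T, B τ) := by positivity
  nlinarith

end Pool.Agent.R361.EW
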