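import Pool.Agent.R361.EW.Edge
import Pool.Agent.R361.EW.Smooth

open MeasureTheory Set Filter Topology

namespace Pool.Agent.R361.EW

/-- unnormalised gaussian -/
noncomputable def hg (s : ℝ) : ℝ := Real.exp (-s ^ 2 / 2)

lemma hg_eq (s : ℝ) : hg s = Real.exp (-(1/2) * s ^ 2) := by unfold hg; congr 1; ring

lemma hg_cont : Continuous hg := by unfold hg; fun_prop

lemma hg_pos (s : ℝ) : 0 < hg s := Real.exp_pos _

lemma hg_int (k : ℕ) : Integrable (fun s : ℝ => s ^ k * hg s) := by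
  have h1 := integrable_rpow_mul_exp_neg_mul_sq (b := 1/2) (by norm_num) (s := (k:ℝ))
    (by have : (0:ℝ) ≤ k := by positivity
        linarith)
  refine h1.congr (Eventually.of_forall (fun s => ?_))
  simp only [Real.rpow_natCast, hg_eq]

lemma hg_tend (k : ℕ) : Tendsto (fun s : ℝ => s ^ k * hg s) (cocompact ℝ) (𝓝 0) := by
  have h1 := tendsto_rpow_abs_mul_exp_neg_mul_sq_cocompact (a := 1/2) (by norm_num) (k:ℝ)
  apply squeeze_zero_norm _ h1
  intro s
  rw [norm_mul, norm_pow, Real.norm_eq_abs, Real.norm_of_nonneg (hg_pos s).le, Real.rpow_natCast, hg_eq]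

lemma hg_int' (k : ℕ) : Integrable (fun s : ℝ => (s : ℂ) ^ k * (hg s : ℂ)) := by
  have := (hg_int k).ofReal (𝕜 := ℂ)
  simpa using this

lemma hg_tend' (k : ℕ) : Tendsto (fun s : ℝ => (s : ℂ) ^ k * (hg s : ℂ)) (cocompact ℝ) (𝓝 0) := by
  have := (Complex.continuous_ofReal.tendsto 0).comp (hg_tend k)
  rw [Complex.ofReal_zero] at this
  refine this.congr (fun s => ?_)
  simp

lemma hg_deriv (s : ℝ) : HasDerivAt hg (-s * hg s) s := by
  unfold hg
  have e1 : HasDerivAt (fun s : ℝ => -s ^ 2 / 2) (-s) s := by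
    have := ((hasDerivAt_pow 2 s).neg).div_const 2
    refine this.congr_deriv ?_
    norm_num
    ring
  refine e1.exp.congr_deriv ?_
  ring

noncomputable def H4 (s : ℝ) : ℝ := (s ^ 4 - 6 * s ^ 2 + 3) * hg s

lemma H4_int : Integrable H4 := by
  have := ((hg_int 4).sub ((hg_int 2).const_mul 6)).add ((hg_int 0).const_mul 3)
  refine this.congr (Eventually.of_forall (fun s => ?_))
  simp only [Pi.add_apply, Pi.sub_apply, H4]
  ring

lemma H4_prim (x : ℝ) : ∫ s in Iic x, H4 s = -(x ^ 3 - 3 * x) * hg x := by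
  have h1 : ∀ s ∈ Iic x, HasDerivAt (fun s => -(s ^ 3 - 3 * s) * hg s) (H4 s) s := by
    intro s _
    have e1 : HasDerivAt (fun s : ℝ => -(s ^ 3 - 3 * s)) (-(3 * s ^ 2 - 3)) s := by
      have := ((hasDerivAt_pow 3 s).sub ((hasDerivAt_id s).const_mul 3)).neg
      refine this.congr_deriv ?_
      norm_num
    refine (e1.mul (hg_deriv s)).congr_deriv ?_
    unfold H4
    ring
  have h2 : Tendsto (fun s => -(s ^ 3 - 3 * s) * hg s) atBot (𝓝 0) := by
    have : Tendsto (fun s : ℝ => -(s ^ 3 * hg s) + 3 * (s ^ 1 * hg s)) (cocompact ℝ) (𝓝 0) := by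
      simpa using (hg_tend 3).neg.add ((hg_tend 1).const_mul 3)
    have h3 := this.mono_left (show atBot ≤ cocompact ℝ from atBot_le_cocompact)
    refine h3.congr (fun s => ?_)
    ring
  rw [integral_Iic_of_hasDerivAt_of_tendsto' h1 H4_int.integrableOn h2]
  ring

lemma fourier_hg (t : ℝ) : ∫ s : ℝ, Complex.exp (t * s * Complex.I) * (hg s : ℂ) =
    (Real.sqrt (2 * Real.pi) * Real.exp (-t ^ 2 / 2) : ℝ) := by
  have h1 := fourierIntegral_gaussian (b := 1/2) (by norm_num) (t : ℂ)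
  have h2 : ∫ s : ℝ, Complex.exp (t * s * Complex.I) * (hg s : ℂ) =
      ∫ x : ℝ, Complex.exp (Complex.I * t * x) * Complex.exp (-(1/2) * (x:ℂ) ^ 2) := by
    congr 1
    ext s
    rw [hg_eq]
    push_cast
    congr 2
    ring
  rw [h2, h1]
  have h3 : (Real.pi / (1 / 2) : ℂ) ^ (1 / 2 : ℂ) = (Real.sqrt (2 * Real.pi) : ℂ) := by
    rw [Real.sqrt_eq_rpow, Complex.ofReal_cpow (by positivity)]
    push_cast
    congr 1
    ring
  rw [h3]
  push_cast
  congr 2
  ring

lemma exp_mul_int (f : ℝ → ℂ) (hf : Integrable f) (t : ℝ) :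
    Integrable (fun s : ℝ => Complex.exp (t * s * Complex.I) * f s) := by
  refine hf.bdd_mul (c := 1) (by fun_prop) (Eventually.of_forall (fun s => ?_))
  have : (t * s * Complex.I : ℂ) = ((t * s : ℝ) : ℂ) * Complex.I := by push_cast; ring
  rw [this, Complex.norm_exp_ofReal_mul_I]

lemma fourier_H4 (t : ℝ) : ∫ s : ℝ, Complex.exp (t * s * Complex.I) * (H4 s : ℂ) =
    (t : ℂ) ^ 4 * (Real.sqrt (2 * Real.pi) * Real.exp (-t ^ 2 / 2) : ℝ) := by
  set I := Complex.I with hI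
  have hI2 : I ^ 2 = -1 := Complex.I_sq
  have hd : ∀ s : ℝ, HasDerivAt (fun s : ℝ => Complex.exp (t * s * I) *
      ((-(s:ℂ) ^ 3 + 3 * s - I * t * s ^ 2 + I * t + t ^ 2 * s + I * t ^ 3) * (hg s : ℂ)))
      (Complex.exp (t * s * I) * (H4 s : ℂ) - t ^ 4 * (Complex.exp (t * s * I) * (hg s : ℂ))) s := by
    intro s
    have e0 : HasDerivAt (fun s : ℝ => (s : ℂ)) 1 s := Complex.ofRealCLM.hasDerivAt
    have e1 : HasDerivAt (fun s : ℝ => Complex.exp (t * s * I)) (Complex.exp (t * s * I) * (t * I)) s := by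
      have := ((e0.const_mul (t:ℂ)).mul_const I).cexp
      refine this.congr_deriv ?_
      ring
    have e2 : HasDerivAt (fun s : ℝ => (hg s : ℂ)) ((-s * hg s : ℝ) : ℂ) s := (hg_deriv s).ofReal_comp
    have p2 : HasDerivAt (fun s : ℝ => (s : ℂ) ^ 2) (2 * s) s := by
      have := e0.pow 2
      refine this.congr_deriv ?_
      push_cast; ring
    have p3 : HasDerivAt (fun s : ℝ => (s : ℂ) ^ 3) (3 * (s:ℂ) ^ 2) s := by
      have := e0.pow 3
      refine this.congr_deriv ?_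
      push_cast; ring
    have e3 : HasDerivAt (fun s : ℝ => (-(s:ℂ) ^ 3 + 3 * s - I * t * s ^ 2 + I * t + t ^ 2 * s + I * t ^ 3))
        (-(3 * (s:ℂ) ^ 2) + 3 * 1 - I * t * (2 * s) + t ^ 2 * 1) s := by
      have := ((((p3.neg.add (e0.const_mul 3)).sub (p2.const_mul (I * t))).add_const (I * t)).add
        (e0.const_mul ((t:ℂ) ^ 2))).add_const (I * (t:ℂ) ^ 3)
      exact this
    refine (e1.mul (e3.mul e2)).congr_deriv ?_
    simp only [Pi.mul_apply]
    unfold H4
    push_cast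
    linear_combination (Complex.exp (t * s * I) * (hg s : ℂ)) * (t ^ 2 - t ^ 2 * s ^ 2 + t ^ 4) * hI2
  have i1 : Integrable (fun s : ℝ => (H4 s : ℂ)) := H4_int.ofReal
  have i2 : Integrable (fun s : ℝ => (hg s : ℂ)) := by simpa using hg_int' 0
  have hT : Tendsto (fun s : ℝ => Complex.exp (t * s * I) *
      ((-(s:ℂ) ^ 3 + 3 * s - I * t * s ^ 2 + I * t + t ^ 2 * s + I * t ^ 3) * (hg s : ℂ))) (cocompact ℝ) (𝓝 0) := by
    have h1 : Tendsto (fun s : ℝ => ((-(s:ℂ) ^ 3 + 3 * s - I * t * s ^ 2 + I * t + t ^ 2 * s + I * t ^ 3) * (hg s : ℂ))) (cocompact ℝ) (𝓝 0) := by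
      have := (((((hg_tend' 3).neg.add ((hg_tend' 1).const_mul 3)).sub ((hg_tend' 2).const_mul (I * t))).add
        ((hg_tend' 0).const_mul (I * t))).add ((hg_tend' 1).const_mul ((t:ℂ) ^ 2))).add ((hg_tend' 0).const_mul (I * (t:ℂ) ^ 3))
      simp only [neg_zero, mul_zero, add_zero, sub_zero] at this
      refine this.congr (fun s => ?_)
      ring
    rw [tendsto_zero_iff_norm_tendsto_zero] at h1 ⊢
    refine h1.congr (fun s => ?_)
    rw [norm_mul (Complex.exp (t * s * I))]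
    have : (t * s * I : ℂ) = ((t * s : ℝ) : ℂ) * Complex.I := by push_cast; rw [hI]
    rw [this, Complex.norm_exp_ofReal_mul_I, one_mul]
  have h2 := integral_of_hasDerivAt_of_tendsto hd
    ((exp_mul_int _ i1 t).sub ((exp_mul_int _ i2 t).const_mul _))
    (hT.mono_left atBot_le_cocompact) (hT.mono_left atTop_le_cocompact)
  rw [integral_sub (exp_mul_int _ i1 t) ((exp_mul_int _ i2 t).const_mul _), integral_const_mul, sub_zero,
    sub_eq_zero, fourier_hg] at h2
  exact h2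

/-- density of the corrected normal law -/
noncomputable def gam (κ N : ℝ) (s : ℝ) : ℝ := (Real.sqrt (2 * Real.pi))⁻¹ * (hg s + κ / (8 * N) * H4 s)

lemma hg_int0 : Integrable hg := by simpa using hg_int 0

lemma gam_int (κ N : ℝ) : Integrable (gam κ N) :=
  (hg_int0.add (H4_int.const_mul _)).const_mul _

lemma gam_cont (κ N : ℝ) : Continuous (gam κ N) := by
  have := hg_cont
  unfold gam H4
  fun_prop

lemma gam_int1 (κ N : ℝ) : Integrable (fun s => |s| * gam κ N s) := by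
  have i1 : Integrable (fun s : ℝ => (Real.sqrt (2 * Real.pi))⁻¹ * (s ^ 1 * hg s + κ / (8 * N) *
    ((s ^ 5 * hg s - 6 * (s ^ 3 * hg s)) + 3 * (s ^ 1 * hg s)))) :=
    ((hg_int 1).add ((((hg_int 5).sub ((hg_int 3).const_mul 6)).add ((hg_int 1).const_mul 3)).const_mul _)).const_mul _
  refine i1.abs.mono' ((continuous_abs.mul (gam_cont κ N)).aestronglyMeasurable) (Eventually.of_forall (fun s => ?_))
  have e1 : (Real.sqrt (2 * Real.pi))⁻¹ * (s ^ 1 * hg s + κ / (8 * N) *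
    ((s ^ 5 * hg s - 6 * (s ^ 3 * hg s)) + 3 * (s ^ 1 * hg s))) = s * gam κ N s := by
    unfold gam H4; ring
  rw [e1, norm_mul, Real.norm_eq_abs, abs_abs, Real.norm_eq_abs, ← abs_mul]

lemma cf_gam (κ N t : ℝ) : cf volume (gam κ N) t = (gg κ N t : ℂ) := by
  unfold cf
  have i1 : Integrable (fun s : ℝ => (H4 s : ℂ)) := H4_int.ofReal
  have i2 : Integrable (fun s : ℝ => (hg s : ℂ)) := by simpa using hg_int' 0
  have h1 : ∫ s : ℝ, Complex.exp (t * s * Complex.I) * (gam κ N s : ℂ) =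
      ∫ s : ℝ, ((Real.sqrt (2 * Real.pi))⁻¹ : ℂ) * ((Complex.exp (t * s * Complex.I) * (hg s : ℂ)) +
        ((κ / (8 * N) : ℝ) : ℂ) * (Complex.exp (t * s * Complex.I) * (H4 s : ℂ))) := by
    congr 1; ext s; unfold gam; push_cast; ring
  rw [h1, integral_const_mul, integral_add (exp_mul_int _ i2 t) ((exp_mul_int _ i1 t).const_mul _),
    integral_const_mul, fourier_hg, fourier_H4]
  unfold gg
  have h2 : (Real.sqrt (2 * Real.pi) : ℂ) ≠ 0 := by
    have : Real.sqrt (2 * Real.pi) ≠ 0 := by positivity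
    exact_mod_cast this
  push_cast
  field_simp

lemma gam_total (κ N : ℝ) : ∫ s, gam κ N s = 1 := by
  have h1 := cf_gam κ N 0
  unfold cf gg at h1
  simp only [Complex.ofReal_zero, zero_mul, Complex.exp_zero, one_mul] at h1
  rw [integral_complex_ofReal] at h1
  have h2 : (∫ s, gam κ N s) = Real.exp (-0 ^ 2 / 2) * (1 + κ * 0 ^ 4 / (8 * N)) := by exact_mod_cast h1
  rw [h2]; simp

lemma gam_bd (κ N : ℝ) (hN : 0 < N) (hκ : |κ| ≤ 4 * N) (s : ℝ) : |gam κ N s| ≤ 13 := by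
  have h1 : |H4 s| ≤ 23 := by
    unfold H4
    have e0 := Real.pow_div_factorial_le_exp (s ^ 2 / 2) (by positivity) 2
    have e1 := Real.pow_div_factorial_le_exp (s ^ 2 / 2) (by positivity) 1
    have e2 := Real.one_le_exp (show 0 ≤ s ^ 2 / 2 by positivity)
    norm_num [Nat.factorial] at e0 e1
    have hE : hg s * Real.exp (s ^ 2 / 2) = 1 := by
      unfold hg; rw [← Real.exp_add]; simp; ring
    have hh := hg_pos s
    have hq : |s ^ 4 - 6 * s ^ 2 + 3| ≤ s ^ 4 + 6 * s ^ 2 + 3 := by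
      rw [abs_le]; constructor <;> nlinarith [sq_nonneg s, sq_nonneg (s ^ 2)]
    rw [abs_mul, abs_of_pos hh]
    have hq2 : s ^ 4 + 6 * s ^ 2 + 3 ≤ 23 * Real.exp (s ^ 2 / 2) := by nlinarith
    calc |s ^ 4 - 6 * s ^ 2 + 3| * hg s ≤ (23 * Real.exp (s ^ 2 / 2)) * hg s := by
          gcongr; exact hq.trans hq2
      _ = 23 * (hg s * Real.exp (s ^ 2 / 2)) := by ring
      _ = 23 := by rw [hE, mul_one]
  have h2 : |hg s| ≤ 1 := by
    rw [abs_of_pos (hg_pos s)]; unfold hg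
    rw [Real.exp_le_one_iff]; nlinarith [sq_nonneg s]
  have h3 : |(Real.sqrt (2 * Real.pi))⁻¹| ≤ 1 := by
    rw [abs_of_pos (by positivity)]
    apply inv_le_one_of_one_le₀
    rw [Real.one_le_sqrt]
    linarith [Real.pi_gt_three]
  have h4 : |κ / (8 * N)| ≤ 1 / 2 := by
    rw [abs_div, abs_of_pos (show 0 < 8 * N by positivity), div_le_iff₀ (by positivity)]
    linarith
  unfold gam
  rw [abs_mul]
  calc |(Real.sqrt (2 * Real.pi))⁻¹| * |hg s + κ / (8 * N) * H4 s|
      ≤ 1 * (|hg s| + |κ / (8 * N) * H4 s|) := by gcongr; exact abs_add_le _ _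
    _ ≤ 1 * (1 + 1 / 2 * 23) := by rw [abs_mul]; gcongr
    _ ≤ 13 := by norm_num

lemma gam_prim (κ N x : ℝ) : ∫ s in Iic x, gam κ N s =
    1 / Real.sqrt (2 * Real.pi) * (∫ s in Iic x, Real.exp (-s ^ 2 / 2)) -
      κ / (8 * Real.sqrt (2 * Real.pi) * N) * (x ^ 3 - 3 * x) * Real.exp (-x ^ 2 / 2) := by
  unfold gam
  rw [integral_const_mul, integral_add hg_int0.integrableOn (H4_int.const_mul _).integrableOn,
    integral_const_mul, H4_prim]
  unfold hg
  by_cases hN : N = 0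
  · simp [hN]
  have : Real.sqrt (2 * Real.pi) ≠ 0 := by positivity
  field_simp
  ring

end Pool.Agent.R361.EW
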