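import Mathlib

open MeasureTheory Set Filter Topology

namespace Pool.Agent.R361.EW

/-- The (unnormalised) Fejer kernel. -/
noncomputable def K (x : ℝ) : ℝ := ∫ t in (0:ℝ)..1, (1 - t) * Real.cos (t * x)

lemma K_cont : Continuous K := by
  unfold K
  apply intervalIntegral.continuous_parametric_intervalIntegral_of_continuous'
  fun_prop

lemma K_formula (x : ℝ) (hx : x ≠ 0) : K x = (1 - Real.cos x) / x ^ 2 := by
  unfold K
  have h1 : ∀ t ∈ Set.uIcc (0:ℝ) 1, HasDerivAt
      (fun t => (1 - t) * Real.sin (t * x) / x - Real.cos (t * x) / x ^ 2)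
      ((1 - t) * Real.cos (t * x)) t := by
    intro t _
    have e1 : HasDerivAt (fun t : ℝ => t * x) x t := by
      simpa using (hasDerivAt_id t).mul_const x
    have e2 : HasDerivAt (fun t : ℝ => Real.sin (t * x)) (Real.cos (t * x) * x) t := e1.sin
    have e3 : HasDerivAt (fun t : ℝ => Real.cos (t * x)) (-Real.sin (t * x) * x) t := e1.cos
    have e4 : HasDerivAt (fun t : ℝ => 1 - t) (-1) t := by
      simpa using (hasDerivAt_id t).const_sub 1
    have e5 := ((e4.mul e2).div_const x).sub (e3.div_const (x ^ 2))
    refine e5.congr_deriv ?_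
    field_simp
    ring
  rw [intervalIntegral.integral_eq_sub_of_hasDerivAt h1
    (Continuous.intervalIntegrable (by fun_prop) _ _)]
  simp only [sub_self, zero_mul, one_mul, zero_div, Real.sin_zero, mul_zero, Real.cos_zero, sub_zero]
  ring

lemma K_zero : K 0 = 1 / 2 := by
  unfold K
  simp only [mul_zero, Real.cos_zero, mul_one]
  rw [intervalIntegral.integral_sub (by simp) (by simp)]
  simp
  norm_num

lemma K_nonneg (x : ℝ) : 0 ≤ K x := by
  by_cases hx : x = 0
  · rw [hx, K_zero]; norm_num
  · rw [K_formula x hx]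
    apply div_nonneg
    · linarith [Real.cos_le_one x]
    · positivity

lemma K_le (x : ℝ) : K x ≤ 4 * (1 + x ^ 2)⁻¹ := by
  by_cases hx : x = 0
  · rw [hx, K_zero]; norm_num
  · rw [K_formula x hx]
    have hx2 : 0 < x ^ 2 := by positivity
    rw [← div_eq_mul_inv, div_le_div_iff₀ hx2 (by positivity)]
    have h1 : 1 - Real.cos x ≤ 2 := by linarith [Real.neg_one_le_cos x]
    have h2 : 1 - Real.cos x ≤ x ^ 2 / 2 := by linarith [Real.one_sub_sq_div_two_le_cos (x := x)]
    nlinarith

lemma K_integrable : Integrable K := by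
  refine (integrable_inv_one_add_sq.const_mul 4).mono' K_cont.aestronglyMeasurable ?_
  refine Eventually.of_forall (fun x => ?_)
  rw [Real.norm_of_nonneg (K_nonneg x)]
  exact K_le x

noncomputable def kap : ℝ := ∫ x, K x

lemma kap_pos : 0 < kap := by
  unfold kap
  rw [integral_pos_iff_support_of_nonneg K_nonneg K_integrable]
  have h1 : IsOpen (Function.support K) := K_cont.isOpen_support
  exact h1.measure_pos volume ⟨0, by rw [Function.mem_support, K_zero]; norm_num⟩

lemma exists_R : ∃ R : ℝ, 0 < R ∧ (3/4) * kap ≤ ∫ x in (-R)..R, K x := by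
  have h1 : Tendsto (fun R : ℝ => ∫ x in (-R)..R, K x) atTop (𝓝 kap) :=
    intervalIntegral_tendsto_integral K_integrable tendsto_neg_atTop_atBot tendsto_id
  have h2 : (3/4) * kap < kap := by linarith [kap_pos]
  obtain ⟨R, hR1, hR2⟩ := ((h1.eventually (lt_mem_nhds h2)).and (eventually_gt_atTop 0)).exists
  exact ⟨R, hR2, hR1.le⟩

/-- primitive of the kernel -/
lemma prim (T z : ℝ) : ∫ y in (0:ℝ)..z, K (T * y) =
    ∫ u in (0:ℝ)..1, (1 - u) * (z * Real.sinc (u * T * z)) := by
  unfold K
  rw [intervalIntegral_intervalIntegral_swap]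
  · apply intervalIntegral.integral_congr
    intro u _
    simp only
    rw [intervalIntegral.integral_const_mul]
    congr 1
    by_cases h : u * T = 0
    · have : ∀ y : ℝ, Real.cos (u * (T * y)) = 1 := by
        intro y; rw [← mul_assoc, h, zero_mul, Real.cos_zero]
      simp [this, h]
    · have h1 : ∀ y ∈ Set.uIcc (0:ℝ) z, HasDerivAt (fun y => Real.sin (u * T * y) / (u * T))
          (Real.cos (u * (T * y))) y := by
        intro y _
        have e1 : HasDerivAt (fun y : ℝ => u * T * y) (u * T) y := by
          simpa using (hasDerivAt_id y).const_mul (u * T)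
        have e2 := (e1.sin).div_const (u * T)
        refine e2.congr_deriv ?_
        rw [mul_div_cancel_right₀ _ h, mul_assoc]
      rw [intervalIntegral.integral_eq_sub_of_hasDerivAt h1
        (Continuous.intervalIntegrable (by fun_prop) _ _)]
      by_cases hz : z = 0
      · simp [hz]
      · rw [Real.sinc_of_ne_zero (mul_ne_zero h hz)]
        simp
        field_simp
  · have hc : Continuous (Function.uncurry fun x y : ℝ => (1 - y) * Real.cos (y * (T * x))) := by
      simp only [Function.uncurry_def]; fun_prop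
    exact (hc.continuousOn.integrableOn_compact (isCompact_uIcc.prod isCompact_uIcc)).mono_set
      (Set.prod_mono Set.uIoc_subset_uIcc Set.uIoc_subset_uIcc)

end Pool.Agent.R361.EW
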