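import Pool.Agent.R361.EW.Core

open MeasureTheory Set Filter Topology

namespace Pool.Agent.R361.EW

theorem core : ∃ C : ℝ, 0 < C ∧ ∀ (μ : Measure ℝ) (lam : ℝ), Mom μ lam → ∀ N : ℕ, 2 ≤ N →
    ∀ (ν : Measure ℝ) [IsProbabilityMeasure ν], Integrable (fun s => |s|) ν →
    (∀ t, charFun ν t = ∏ n ∈ Finset.Ico 1 N, charFun μ (th N n * t)) →
    ∀ x, |ν.real (Iic x) - ∫ s in Iic x, gam ((∫ x, x ^ 4 ∂μ) - 3) N s| ≤
      C * (lam / Real.sqrt N) ^ 3 := by
  obtain ⟨c3, c4, N0, hc3, hc4, hN02, hfacts⟩ := facts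
  obtain ⟨Cs, hCs, hsm⟩ := smoothing
  obtain ⟨CE, hCE0, hCE⟩ := EE_bound
  obtain ⟨Ct, hCt, htriv⟩ := trivial_bound
  have hal := al_pos
  have hrho := rho_pos
  -- constants
  set kp := 3 * rho / 8 with hkp
  have hkp0 : 0 < kp := by positivity
  set c1 := 1 / (4 * c3 + 3 + c4) with hc1
  have hc10 : 0 < c1 := by positivity
  set ξ := min (1/4) (c1 * kp * al / 5) with hξ
  have hξ0 : 0 < ξ := lt_min (by norm_num) (by positivity)
  have hξ1 : ξ ≤ 1 / 4 := min_le_left _ _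
  have hξ2 : 5 * ξ ≤ c1 * kp * al := by
    have := min_le_right (1/4 : ℝ) (c1 * kp * al / 5)
    linarith
  set c2 := ξ / (2 * al) with hc2
  have hc20 : 0 < c2 := by positivity
  set c5 := kp * ξ ^ 2 / 192 with hc5
  have hc50 : 0 < c5 := by positivity
  set D := 12 * c3 ^ 5 + ((3 + c4) / 6) ^ 2 + c4 / 6 + 1 / c1 ^ 3 with hD
  have hD0 : 0 < D := by positivity
  set C1 := Cs * (D * CE + 6 * c2 / (c1 * c5 ^ 3) + 13 / c2) with hC1
  have hC10 : 0 < C1 := by positivity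
  set C2 := (1 + 5 * Ct) * (N0:ℝ) ^ 2 with hC2
  have hN0pos : (0:ℝ) < N0 := by positivity
  have hC20 : 0 < C2 := by positivity
  refine ⟨C1 + C2, by positivity, ?_⟩
  intro μ lam h N hN ν _ hν hcf x
  have hl1 := h.one_le
  have hm := h.m4_le
  have hm0 := h.m4_nonneg
  set κ := (∫ x, x ^ 4 ∂μ) - 3 with hκ
  set sN := Real.sqrt N with hsN
  have hN0 : (0:ℝ) < N := by positivity
  have hN1 : (1:ℝ) ≤ N := by exact_mod_cast (by omega : 1 ≤ N)
  have hsN0 : 0 < sN := Real.sqrt_pos.mpr hN0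
  have hsN2 : sN ^ 2 = N := Real.sq_sqrt hN0.le
  set r := lam / sN with hr
  have hr0 : 0 < r := by positivity
  have hrl : r * sN = lam := by rw [hr]; field_simp
  have hκ1 : |κ| ≤ 4 * lam ^ 2 := by
    have hl2 : 1 ≤ lam ^ 2 := one_le_pow₀ hl1
    rw [abs_le]; constructor <;> linarith
  have hκN : |κ| / N ≤ 4 * r ^ 2 := by
    rw [div_le_iff₀ hN0, ← hsN2]
    have : 4 * r ^ 2 * sN ^ 2 = 4 * lam ^ 2 := by rw [← hrl]; ring
    rw [this]; exact hκ1
  have htb : |ν.real (Iic x) - ∫ s in Iic x, gam κ N s| ≤ 1 + Ct * (1 + 4 * r ^ 2) := by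
    refine (abs_sub _ _).trans ?_
    have b1 : |ν.real (Iic x)| ≤ 1 := by
      rw [abs_of_nonneg measureReal_nonneg]; exact measureReal_le_one
    have b2 := htriv κ N x hN0
    have b3 : Ct * (1 + |κ| / N) ≤ Ct * (1 + 4 * r ^ 2) := by gcongr
    linarith
  have hN0sq : 1 ≤ (N0:ℝ) ^ 2 := by
    have : (1:ℝ) ≤ N0 := by exact_mod_cast (by omega : 1 ≤ N0)
    exact one_le_pow₀ this
  rcases le_or_gt r 1 with hr1 | hr1
  swap
  · -- r > 1
    have e1 : 1 + Ct * (1 + 4 * r ^ 2) ≤ (1 + 5 * Ct) * r ^ 3 := by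
      have e2 : 1 ≤ r ^ 3 := one_le_pow₀ hr1.le
      have e3 : r ^ 2 ≤ r ^ 3 := pow_le_pow_right₀ hr1.le (by norm_num)
      linarith only [e2, mul_le_mul_of_nonneg_left e2 hCt.le, mul_le_mul_of_nonneg_left e3 hCt.le]
    refine (htb.trans e1).trans ?_
    have e4 : (1 + 5 * Ct) * r ^ 3 ≤ C2 * r ^ 3 := by
      rw [hC2]
      apply mul_le_mul_of_nonneg_right _ (by positivity)
      have := mul_nonneg (show 0 ≤ 1 + 5 * Ct by positivity) (sub_nonneg.mpr hN0sq)
      linarith only [this]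
    have : 0 ≤ C1 * r ^ 3 := by positivity
    linarith
  rcases lt_or_ge N N0 with hNN | hNN
  · -- small N
    have e1 : 1 + Ct * (1 + 4 * r ^ 2) ≤ 1 + 5 * Ct := by
      have : r ^ 2 ≤ 1 := pow_le_one₀ hr0.le hr1
      linarith only [mul_le_mul_of_nonneg_left this hCt.le]
    have e2 : 1 ≤ (N0:ℝ) ^ 2 * r ^ 3 := by
      have e3 : 1 ≤ lam ^ 3 := one_le_pow₀ hl1
      have e4 : sN ^ 3 ≤ (N0:ℝ) ^ 2 := by
        have e5 : sN ^ 3 ≤ sN ^ 4 := by
          apply pow_le_pow_right₀ _ (by norm_num)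
          rw [hsN]; exact Real.one_le_sqrt.mpr hN1
        have e6 : sN ^ 4 = (N:ℝ) ^ 2 := by rw [← hsN2]; ring
        rw [e6] at e5
        refine e5.trans ?_
        have : (N:ℝ) ≤ N0 := by exact_mod_cast hNN.le
        gcongr
      rw [hr, div_pow, ← mul_div_assoc, le_div_iff₀ (by positivity)]
      have := mul_le_mul_of_nonneg_left e3 (show 0 ≤ (N0:ℝ) ^ 2 by positivity)
      linarith only [this, e4]
    have e7 : (1 + 5 * Ct) ≤ C2 * r ^ 3 := by
      rw [hC2]
      have := mul_le_mul_of_nonneg_left e2 (show 0 ≤ 1 + 5 * Ct by positivity)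
      linarith only [this]
    have : 0 ≤ C1 * r ^ 3 := by positivity
    linarith
  -- main case
  obtain ⟨hA1, hA2, hth2, hth4, hth⟩ := hfacts N hNN
  set T := c2 / r ^ 3 with hT
  have hT0 : 0 < T := by positivity
  set E := r / c1 * Real.exp (-(c5 / r ^ 2)) with hE
  have hE0 : 0 < E := by positivity
  set B : ℝ → ℝ := fun t => D * r ^ 3 * EE t + E with hB
  have hBint : IntervalIntegrable B volume 0 T :=
    ((EE_cont.const_smul (D * r ^ 3)).add continuous_const).intervalIntegrable _ _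
  have hκ4 : |κ| ≤ 4 * N := by
    have : |κ| / N ≤ 4 := by
      refine hκN.trans ?_
      have : r ^ 2 ≤ 1 := pow_le_one₀ hr0.le hr1
      linarith
    rwa [div_le_iff₀ hN0] at this
  have hcomp : ∀ τ ∈ Ioc 0 T, ‖cf ν (fun _ => 1) τ - cf volume (gam κ N) τ‖ ≤ τ * B τ := by
    intro t ht
    have ht0 : 0 < t := ht.1
    rw [cf_one, cf_gam, hcf t]
    have hexp := Real.exp_pos (-t ^ 2 / 4)
    rcases le_or_gt (r * t) c1 with hlow | hhigh
    · have hlr := low_range h (Finset.Ico 1 N) (th N) N (by omega) c3 c4 hc4 (fun n _ => hth n) hth2 hth4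
        (by simp) r hr hr1 t ht0.le
        (by
          have e1 : c3 * c1 ≤ 1 / 4 := by
            rw [hc1, mul_one_div, div_le_iff₀ (by positivity)]; linarith
          calc c3 * r * t = c3 * (r * t) := by ring
            _ ≤ c3 * c1 := by gcongr
            _ ≤ 1 / 4 := e1)
        (by
          have e1 : (3 + c4) * c1 ^ 2 ≤ 3 / 4 := by
            have e2 : (3 + c4) * c1 ≤ 1 := by
              rw [hc1, mul_one_div, div_le_iff₀ (by positivity)]; linarith
            have e3 : c1 ≤ 1 / 3 := by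
              rw [hc1]; apply one_div_le_one_div_of_le (by norm_num); linarith only [hc3, hc4]
            have := mul_le_mul_of_nonneg_right e2 hc10.le
            linarith only [this, e3]
          calc (3 + c4) * (r * t) ^ 2 ≤ (3 + c4) * c1 ^ 2 := by gcongr
            _ ≤ 3 / 4 := e1)
      refine hlr.trans ?_
      have e1 : t * B t = r ^ 3 * Real.exp (-t ^ 2 / 4) * (D * (t ^ 3 + t ^ 4 + t ^ 5 + t ^ 7 + t ^ 8)) + t * E := by
        simp only [hB, EE]; ring
      rw [e1]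
      have e2 : 12 * c3 ^ 5 * t ^ 5 + ((3 + c4) / 6) ^ 2 * t ^ 8 + c4 / 6 * t ^ 4 ≤
          D * (t ^ 3 + t ^ 4 + t ^ 5 + t ^ 7 + t ^ 8) := by
        have d1 : 12 * c3 ^ 5 ≤ D := by
          rw [hD]; have : 0 < ((3 + c4) / 6) ^ 2 + c4 / 6 + 1 / c1 ^ 3 := by positivity
          linarith
        have d2 : ((3 + c4) / 6) ^ 2 ≤ D := by
          rw [hD]; have : 0 < 12 * c3 ^ 5 + c4 / 6 + 1 / c1 ^ 3 := by positivity
          linarith
        have d3 : c4 / 6 ≤ D := by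
          rw [hD]; have : 0 < 12 * c3 ^ 5 + ((3 + c4) / 6) ^ 2 + 1 / c1 ^ 3 := by positivity
          linarith
        have f1 := mul_le_mul_of_nonneg_right d1 (show 0 ≤ t ^ 5 by positivity)
        have f2 := mul_le_mul_of_nonneg_right d2 (show 0 ≤ t ^ 8 by positivity)
        have f3 := mul_le_mul_of_nonneg_right d3 (show 0 ≤ t ^ 4 by positivity)
        have f4 : 0 ≤ D * (t ^ 3 + t ^ 7) := by positivity
        linarith
      have e3 := mul_le_mul_of_nonneg_left e2 (show 0 ≤ r ^ 3 * Real.exp (-t ^ 2 / 4) by positivity)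
      have e4 : 0 ≤ t * E := by positivity
      linarith
    · have hh := high_conc h N hN hA1 hA2 r hr c1 ξ hξ0 hξ1 hξ2 t ht0 hhigh.le ht.2
      have e1 : 1 ≤ r * t / c1 := by rw [le_div_iff₀ hc10]; linarith
      have e2 : Real.exp (-(c5 / r ^ 2)) ≤ t * E := by
        have : t * E = (r * t / c1) * Real.exp (-(c5 / r ^ 2)) := by rw [hE]; ring
        rw [this]
        have h8 := mul_le_mul_of_nonneg_right e1 (Real.exp_pos (-(c5 / r ^ 2))).le
        linarith only [h8]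
      have e3 : ‖(gg κ N t : ℂ)‖ ≤ Real.exp (-t ^ 2 / 4) * (1 + t ^ 4) := by
        rw [Complex.norm_real, Real.norm_eq_abs]
        unfold gg
        rw [abs_mul, abs_of_pos (Real.exp_pos _)]
        have e4 : Real.exp (-t ^ 2 / 2) ≤ Real.exp (-t ^ 2 / 4) := Real.exp_le_exp.mpr (by linarith only [sq_nonneg t])
        have e5 : |1 + κ * t ^ 4 / (8 * N)| ≤ 1 + t ^ 4 := by
          refine (abs_add_le _ _).trans ?_
          rw [abs_one, abs_div, abs_mul, abs_of_pos (show (0:ℝ) < 8 * N by positivity), abs_of_pos (show 0 < t ^ 4 by positivity)]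
          gcongr
          rw [div_le_iff₀ (by positivity)]
          have h8 := mul_le_mul_of_nonneg_right hκ4 (show 0 ≤ t ^ 4 by positivity)
          have h9 : 0 ≤ (N:ℝ) * t ^ 4 := by positivity
          linarith only [h8, h9]
        gcongr
      have e6 : Real.exp (-t ^ 2 / 4) * (1 + t ^ 4) ≤ t * (D * r ^ 3 * EE t) := by
        have e7 : 1 ≤ (r * t / c1) ^ 3 := one_le_pow₀ e1
        have e8 : (r * t / c1) ^ 3 = (1 / c1 ^ 3) * (r ^ 3 * t ^ 3) := by
          field_simp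
        have e9 : 1 / c1 ^ 3 ≤ D := by
          rw [hD]; have : 0 < 12 * c3 ^ 5 + ((3 + c4) / 6) ^ 2 + c4 / 6 := by positivity
          linarith
        have e10 : 1 ≤ D * (r ^ 3 * t ^ 3) := by
          rw [e8] at e7
          refine e7.trans ?_
          gcongr
        calc Real.exp (-t ^ 2 / 4) * (1 + t ^ 4) = 1 * (Real.exp (-t ^ 2 / 4) * (1 + t ^ 4)) := by ring
          _ ≤ (D * (r ^ 3 * t ^ 3)) * (Real.exp (-t ^ 2 / 4) * (1 + t ^ 4)) := by gcongr
          _ = D * r ^ 3 * Real.exp (-t ^ 2 / 4) * (t ^ 3 + t ^ 7) := by ring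
          _ ≤ D * r ^ 3 * Real.exp (-t ^ 2 / 4) * (t ^ 3 + t ^ 4 + t ^ 5 + t ^ 7 + t ^ 8) := by
            have h8 : 0 < t ^ 4 + t ^ 5 + t ^ 8 := by positivity
            have h9 : t ^ 3 + t ^ 7 ≤ t ^ 3 + t ^ 4 + t ^ 5 + t ^ 7 + t ^ 8 := by linarith only [h8]
            exact mul_le_mul_of_nonneg_left h9 (by positivity)
          _ = t * (D * r ^ 3 * EE t) := by unfold EE; ring
      refine (norm_sub_le _ _).trans ?_
      have e11 : t * B t = t * (D * r ^ 3 * EE t) + t * E := by simp only [hB]; ring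
      rw [e11]
      have e12 : (3 * rho / 8) * ξ ^ 2 / 192 / r ^ 2 = c5 / r ^ 2 := by rw [hc5, hkp]
      rw [e12] at hh
      linarith
  have hres := hsm ν (gam κ N) 13 T B hν (gam_int κ N) (gam_int1 κ N) (gam_total κ N)
    (gam_bd κ N hN0 hκ4) hT0 hBint hcomp x
  refine hres.trans ?_
  have hBval : ∫ τ in (0:ℝ)..T, B τ = D * r ^ 3 * (∫ τ in (0:ℝ)..T, EE τ) + T * E := by
    simp only [hB]
    have hi : IntervalIntegrable (fun t => D * r ^ 3 * EE t) volume 0 T :=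
      (EE_cont.intervalIntegrable _ _).const_mul _
    rw [intervalIntegral.integral_add hi intervalIntegrable_const,
      intervalIntegral.integral_const_mul]
    simp
  rw [hBval]
  have g1 : D * r ^ 3 * (∫ τ in (0:ℝ)..T, EE τ) ≤ D * r ^ 3 * CE := by
    gcongr; exact hCE T hT0.le
  have g2 : T * E ≤ 6 * c2 / (c1 * c5 ^ 3) * r ^ 3 := by
    have g3 : Real.exp (-(c5 / r ^ 2)) ≤ 6 * r ^ 6 / c5 ^ 3 := by
      have g4 := Real.pow_div_factorial_le_exp (c5 / r ^ 2) (by positivity) 3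
      rw [Real.exp_neg, inv_le_comm₀ (Real.exp_pos _) (by positivity)]
      refine le_trans (le_of_eq ?_) g4
      norm_num [Nat.factorial]
      field_simp
    calc T * E = c2 / (c1 * r ^ 2) * Real.exp (-(c5 / r ^ 2)) := by
          rw [hT, hE]; field_simp
      _ ≤ c2 / (c1 * r ^ 2) * (6 * r ^ 6 / c5 ^ 3) := by gcongr
      _ = 6 * c2 / (c1 * c5 ^ 3) * r ^ 3 * r := by field_simp
      _ ≤ 6 * c2 / (c1 * c5 ^ 3) * r ^ 3 * 1 := by gcongr
      _ = _ := by ring
  have g5 : 13 / T = 13 / c2 * r ^ 3 := by rw [hT]; field_simp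
  rw [g5]
  have g6 : Cs * (D * r ^ 3 * (∫ τ in (0:ℝ)..T, EE τ) + T * E + 13 / c2 * r ^ 3) ≤ C1 * r ^ 3 := by
    calc Cs * (D * r ^ 3 * (∫ τ in (0:ℝ)..T, EE τ) + T * E + 13 / c2 * r ^ 3)
        ≤ Cs * (D * r ^ 3 * CE + 6 * c2 / (c1 * c5 ^ 3) * r ^ 3 + 13 / c2 * r ^ 3) := by gcongr
      _ = C1 * r ^ 3 := by rw [hC1]; ring
  have : 0 ≤ C2 * r ^ 3 := by positivity
  linarith

end Pool.Agent.R361.EW
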